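import Pool.Agent.Q25.PLP.Def

/-!
# Points, lines and planes: the steps of the proof of `2 t ^ 2 ≥ 3 n π`

Conventions: `q = V.card`; for a linear space every two different points of `V` are on exactly one
line, every point of `V` is on at least two lines (a line through `z`, a point off it, the line
joining it to `z`).
-/

set_option autoImplicit false

open Finset Pool.Agent.Helper123.PLP

namespace Pool.Agent.Q25.PLP

/-- PL. The lines inside a plane form a linear space. Proof: `closed` gives that the line joining two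
points of `h` is inside `h`. `ncol`: `nondeg` gives `l0 ⊆ h` and `x ∈ h`, `x ∉ l0`; if `h ⊆ l` for a
line `l ⊆ h` then `l0 ⊆ l`, so `l0 = l` (two common points), contradiction. -/
def S_PL : Prop := ∀ (P : Type) [Fintype P] [DecidableEq P] (G : Geo P), ∀ h ∈ G.H,
  IsLS h (inn G.L h)

/-- B1. A nonempty proper subset `S` of the points is met by at least `|S| + 1` lines.
Proof: take `x ∈ V`, `x ∉ S`, `T = insert x S`. For `z ∈ T` let `u z : mee L S → ℝ`,
`u z l = 1` if `z ∈ l`, else `0`. These `|S| + 1` vectors are linearly independent: if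
`∑ v z • u z = 0` then `0 = ∑_l (∑_{z ∈ T ∩ l} v z)^2 = (∑ v)^2 + ∑_{z ∈ S} (r z - 1) (v z)^2 +
(f - 1) (v x)^2`, where `r z ≥ 2` is the number of lines through `z`, `f ≥ 1` the number of lines
through `x` that meet `S` (two different points of `T` are on exactly one line and it meets `S`). So
`v = 0` on `S`, then `v x = ∑ v = 0`. So `|S| + 1 ≤ |mee L S|` (dimension). -/
def S_B1 : Prop := ∀ (P : Type) [DecidableEq P] (V : Finset P) (L : Finset (Finset P)),
  IsLS V L → ∀ S : Finset P, S ⊆ V → S.Nonempty → S ≠ V → S.card + 1 ≤ (mee L S).card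

/-- DBE. De Bruijn-Erdos: at least as many lines as points. Proof: as B1 with `T = V` and all lines:
`∑_l (∑_{z ∈ l} v z)^2 = (∑ v)^2 + ∑ (r z - 1) (v z)^2`. -/
def S_DBE : Prop := ∀ (P : Type) [DecidableEq P] (V : Finset P) (L : Finset (Finset P)),
  IsLS V L → V.card ≤ L.card

/-- C1. Let `S` be a set of points, `x, y` two different points outside `S`. Then at least `|S|` lines
miss `x` and meet `S`, or there is a line `M` through `x` all of whose other points are in `S` and are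
on exactly `|M|` lines.
Proof: suppose fewer than `|S|` lines miss `x` and meet `S`. Then there is `v : P → ℝ`, zero outside
`S`, not zero, with `∑_{z ∈ l} v z = 0` for every line `l` missing `x` (a homogeneous linear system
with fewer equations than unknowns; for the lines not meeting `S` it is trivial). Let `V0 = ∑ v` and
`t M = ∑_{z ∈ M} v z` for the lines `M` through `x`. (1) For every `y' ∈ V`, `y' ∉ S`, `y' ≠ x`:
summing over all lines through `y'` gives `V0` on one side (`v y' = 0`, every other point is on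
exactly one line through `y'`), and only the line `x y'` contributes, so `t (x y') = V0`. (2) For
`z ∈ S`: summing over all lines through `z` gives `V0 + (r z - 1) v z = t (x z)`, `r z` = number of
lines through `z`, `r z ≥ 2`. So for `M` through `x`: `t M = (t M - V0) σ M` with
`σ M = ∑_{z ∈ M ∩ S} 1 / (r z - 1)`. For `M = x y` (1) gives `V0 = 0 * σ = 0`. So `V0 = 0`,
`v z = t (x z) / (r z - 1)`, `t M = t M * σ M`. As `v ≠ 0` some `t M ≠ 0`, and the sum of all `t M`
is `V0 = 0` (`v x = 0`), so there are two different lines `M, M'` through `x` with `t M, t M' ≠ 0`,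
so `σ M = σ M' = 1`, and by (1) all points of `M, M'` other than `x` are in `S`. Let `k = |M| - 1`,
`k' = |M'| - 1`. A point `z ∈ M`, `z ≠ x`, is joined to the `k'` points of `M'` other than `x` by
different lines which are not `M`, so `r z - 1 ≥ k'`. So `1 = σ M ≤ k / k'`, so `k' ≤ k`; by symmetry
`k = k'`, and then `σ M = 1` forces `r z - 1 = k` for all `z ∈ M`, `z ≠ x`. -/
def S_C1 : Prop := ∀ (P : Type) [DecidableEq P] (V : Finset P) (L : Finset (Finset P)),
  IsLS V L → ∀ x ∈ V, ∀ S : Finset P, S ⊆ V → x ∉ S → ∀ y ∈ V, y ∉ S → y ≠ x →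
  S.card ≤ (mis L x S).card ∨
    ∃ M ∈ L, x ∈ M ∧ M.erase x ⊆ S ∧ ∀ z ∈ M.erase x, (thr L z).card = M.card

/-- CB. Let `A` be a set of `N` lines through `x` which do not meet `S`, `M` a line through `x` not in
`A`. Then `N |S| + N |M| ≤ y + N |V|`, where `y` is the number of lines missing `x` and meeting `S`.
Proof: for `l ∈ A` take a point `y l ∈ l`, `y l ≠ x`; these `N` points are different, not on `M`, not in
`S`. So `|V| - |M| ≥ |S \ M| + N`. For `z ∈ S ∩ M` the lines through `z` other than `M` miss `x` and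
meet `S`, for different `z` they are different (two points of `M` determine `M`). The number of lines
joining `z` to the points `y l` is at least `N -` (number of pairs `{l, l'}` such that `z` is on the
line through `y l, y l'`), and every pair `{l, l'}` is counted for at most one `z ∈ M`. So
`y ≥ N |S ∩ M| - N (N - 1) / 2`, and `N |S| + N |M| = N |S ∩ M| + N |S \ M| + N |M| ≤
y + N (N - 1) / 2 + N (|V| - N) ≤ y + N |V|`. (Another way to count: the pairs `(l, z)`, `l ∈ A`,
`z ∈ S ∩ M`, are mapped to the line through `y l` and `z`; a line with `m` of the points `y l` gets `m`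
pairs, and `∑ (m - 1) ≤ ∑ m (m - 1) / 2 ≤ N (N - 1) / 2`.) -/
def S_CB : Prop := ∀ (P : Type) [DecidableEq P] (V : Finset P) (L : Finset (Finset P)),
  IsLS V L → ∀ x ∈ V, ∀ S : Finset P, S ⊆ V → x ∉ S → ∀ A : Finset (Finset P), A ⊆ thr L x →
  (∀ l ∈ A, l ∩ S = ∅) → ∀ M ∈ L, x ∈ M → M ∉ A →
  A.card * S.card + A.card * M.card ≤ (mis L x S).card + A.card * V.card

/-- TC. Let `M` be a line through `x`, `k = |M| - 1`, such that every point `z ≠ x` of `M` is on
exactly `k + 1` lines. (1) Every line through `x` has at most `k + 1` points. (2) If `S` contains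
`M \ {x}` then at least `k ^ 2` lines miss `x` and meet `S`. (3) If `k ≥ 2` then `|V| ≤ k^2 + k + 1`.
(4) If `k = 1` then `V` is a line plus the point `x`.
Proof: let `𝓑` be the set of the lines other than `M` that meet `M \ {x}`; every `z ∈ M`, `z ≠ x`, is on
exactly `k` of them, different `z` have different ones, so `|𝓑| = k^2`, none contains `x`; this is (2).
(1): `l ≠ M` through `x`, `z ∈ M`, `z ≠ x`: `M` and the lines joining `z` to the `|l| - 1` points of
`l` other than `x` are different, so `|l| ≤ k + 1`. (3): every point `w ≠ x` of `V` is on exactly `k`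
lines of `𝓑` (clear for `w ∈ M`; for `w ∉ M` these are the lines joining `w` to the points of
`M \ {x}`). For `l ∈ 𝓑` every line `l' ∈ 𝓑`, `l' ≠ l`, meets `l` in at most one point, so
`|l| (k - 1) ≤ k^2 - 1`, so `|l| ≤ k + 1`. So `(|V| - 1) k = ∑_{l ∈ 𝓑} |l| ≤ k^2 (k + 1)`.
(4): `M = {x, z}`, `z` is on exactly one other line `l0`, which contains all points other than `x`
(a point `w ≠ x, z` is not on `M`, so the line `w z` is `l0`), `x ∉ l0`. -/
def S_TC : Prop := ∀ (P : Type) [DecidableEq P] (V : Finset P) (L : Finset (Finset P)),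
  IsLS V L → ∀ x ∈ V, ∀ M ∈ L, x ∈ M → (∀ z ∈ M.erase x, (thr L z).card = M.card) →
  (∀ l ∈ L, x ∈ l → l.card ≤ M.card) ∧
  (∀ S : Finset P, M.erase x ⊆ S → (M.card - 1) ^ 2 ≤ (mis L x S).card) ∧
  (3 ≤ M.card → V.card ≤ (M.card - 1) ^ 2 + M.card) ∧
  (M.card = 2 → ∃ l0 ∈ L, x ∉ l0 ∧ V = insert x l0)

/-- NP. For a line `l0` plus a point `x` the number `LamX` is at most `0`.
Proof: the lines are `l0` and the pairs `{x, z}`, `z ∈ l0`; let `m = |l0| ≥ 2`, `μ = γ (X l0)` the
minimum of `γ` on `l0`, `γ (X {x,z}) = min (γ x) (γ z)`. So `LamX = (μ - γ x) +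
∑_{z ∈ l0} ∑_{w ∈ l0, w ≠ z} (min (γ x) (γ z) - γ w) = (μ - γ x) -
(m - 1) ∑_{z ∈ l0} (γ z - min (γ x) (γ z))`. If `μ ≤ γ x` this is `≤ 0`; else
`γ z - min (γ x) (γ z) = γ z - γ x ≥ μ - γ x` for all `z ∈ l0`, and `(m - 1) m ≥ 1`. -/
def S_NP : Prop := ∀ (P : Type) [DecidableEq P] (V : Finset P) (L : Finset (Finset P)),
  IsLS V L → ∀ x : P, ∀ l0 ∈ L, x ∉ l0 → V = insert x l0 → ∀ (γ : P → ℝ) (X : Finset P → P),
  IsLow L γ X → LamX V L γ X ≤ 0

/-- DEC. Decomposition into the contributions of the points.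
Proof: write `γ (X l) - γ z = max (γ (X l) - γ z) 0 - max (γ z - γ (X l)) 0`. For `z ∈ l` the first
maximum is `0` (lowest point), so `∑_{z ∈ V \ l} max (γ (X l) - γ z) 0 = bet V γ (X l)`, and the sum
over the lines is `∑_{x ∈ V} NN x * bet x` (as `X l ∈ l ⊆ V`). The second maxima sum to
`∑_{z ∈ V} eta z`. And `∑_{x, z ∈ l} (γ x - γ z)^2 = 2 ∑_{x, z ∈ l} (max (γ x - γ z) 0)^2`, so
`QQ = ∑_{x ∈ V} Qx x`. -/
def S_DEC : Prop := ∀ (P : Type) [DecidableEq P] (V : Finset P) (L : Finset (Finset P))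
  (γ : P → ℝ) (X : Finset P → P), IsLS V L → IsLow L γ X →
  coll V L X - 2 * LamX V L γ X + QQ V L γ = ∑ x ∈ V, trm V L γ X x

/-- LOW. The lowest points contribute at least `2` (if `γ` is not constant). To be proved from B1:
`theorem t_LOW (h : S_B1) : S_LOW`. Proof: for a lowest point `x`, `bet`, `eta`, `Qx` vanish and
`trm = N (N - 1)`, `N = NN L X x`. Let `C` be the set of the lowest points, nonempty and not `V`. A line
meets `C` iff `X l ∈ C`, so `∑_{x ∈ C} N x = |mee L C| ≥ |C| + 1`. As `N (N - 1) ≥ 2 (N - 1)` for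
natural numbers, the sum is at least `2 (|mee L C| - |C|) ≥ 2`. -/
def S_LOW : Prop := ∀ (P : Type) [DecidableEq P] (V : Finset P) (L : Finset (Finset P))
  (γ : P → ℝ) (X : Finset P → P), IsLS V L → IsLow L γ X → (∃ x ∈ V, ∃ y ∈ V, γ x ≠ γ y) →
  2 ≤ ∑ x ∈ V.filter (fun x => ∀ y ∈ V, γ x ≤ γ y), trm V L γ X x

/-- ABS. A real inequality.
Proof: let `s θ = #{z | θ < ζ z}`, `y θ = #{l | θ < ξ l}`, `v θ = max (N * s θ - y θ) 0`,
`F θ = ∫_0^θ v`, `R` larger than all values. Then `∑ ζ = ∫_0^R s`, `∑ ξ = ∫_0^R y`, so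
`N ∑ ζ - ∑ ξ ≤ F R`. By hypothesis `v θ ≤ (N - 1) s θ`, and `v θ' ≤ N * k z` for all `θ' ≤ θ < ζ z`,
so `F θ ≤ N * k z * θ` for `θ ≤ ζ z`. So `(F R)^2 = ∫_0^R 2 F v ≤ ∫_0^R 2 (N - 1) ∑_{z : θ < ζ z} F θ
≤ ∑_z 2 (N - 1) ∫_0^{ζ z} N k z θ dθ = N (N - 1) Q` with `Q = ∑ k z (ζ z)^2`. So
`2 (N ∑ ζ - ∑ ξ) ≤ 2 F R ≤ 2 √(N (N - 1) Q) ≤ N (N - 1) + Q`.
(Discrete form, if preferred: let `0 = a 0 < a 1 < ... < a r` be the values of `ζ`, and `v i` the value
of `v` just below `a i`... sums instead of integrals; note `y` may also jump elsewhere, so include the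
values of `ξ` in the list `a`. With `F i = ∑_{j ≤ i} (a j - a (j-1)) v j`:
`(F i)^2 - (F (i-1))^2 ≤ N (N - 1) ∑_{z : ζ z ≥ a i} k z ((a i)^2 - (a (i-1))^2)`.) -/
def S_ABS : Prop := ∀ (Z Y : Type) [Fintype Z] [Fintype Y] (ζ : Z → ℝ) (ξ : Y → ℝ) (k : Z → ℝ)
  (N : ℝ), 1 ≤ N → (∀ z, 0 ≤ ζ z) → (∀ l, 0 ≤ ξ l) → (∀ z, 0 ≤ k z) →
  (∀ θ : ℝ, 0 ≤ θ → (univ.filter (fun z => θ < ζ z)).card ≤ (univ.filter (fun l => θ < ξ l)).card) →
  (∀ θ : ℝ, 0 ≤ θ → ∀ z, θ < ζ z →
    N * ((univ.filter (fun z => θ < ζ z)).card : ℝ) ≤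
      ((univ.filter (fun l => θ < ξ l)).card : ℝ) + N * k z) →
  2 * N * ∑ z, ζ z ≤ N * (N - 1) + 2 * ∑ l, ξ l + ∑ z, k z * (ζ z) ^ 2

/-- LC. Layer cake. Proof: `∑ ζ = ∫_0^R #{z | θ < ζ z} dθ` for `R` larger than all values, same for
`ξ`; or induction on the number of different values. -/
def S_LC : Prop := ∀ (Z Y : Type) [Fintype Z] [Fintype Y] (ζ : Z → ℝ) (ξ : Y → ℝ) (κ : ℝ),
  0 ≤ κ → (∀ z, 0 ≤ ζ z) → (∀ l, 0 ≤ ξ l) →
  (∀ θ : ℝ, 0 ≤ θ → κ * ((univ.filter (fun z => θ < ζ z)).card : ℝ) ≤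
      ((univ.filter (fun l => θ < ξ l)).card : ℝ)) →
  κ * ∑ z, ζ z ≤ ∑ l, ξ l

/-- ABT. A real inequality (near-projective case). To be proved from LC:
`theorem t_ABT (h : S_LC) : S_ABT`. Proof: let `W = ∑ ζ`. As `min s (k^2) ≥ (k^2 / b) s` for
`0 ≤ s ≤ b`, LC gives `∑ ξ ≥ (k^2 / b) W`. Cauchy-Schwarz: `∑ κ z (ζ z)^2 ≥ (b + N - k) W^2 / b`.
Let `t = (k - N) / b`; `N < k` as `k^2 < b ≤ k^2 + k - N`, so `0 < t ≤ (k - N) / (k^2 + 1)`;
`k^2 / b = 1 - (b - k^2) / b ≥ 1 - t` and `(b + N - k) / b = 1 - t`. So the right side is at least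
`N (N - 1) - 2 (N - 1 + t) W + (1 - t) W^2`. If `N = 1` this is at least `- t^2 / (1 - t) ≥
- (k - 1)^2 / ((k^2 + 1) (k^2 - k + 2)) ≥ - 1 / (2 k)`, because `2 k (k - 1)^2 ≤ (k^2 + 1)
(k^2 - k + 2)`. If `N ≥ 2` (so `k ≥ 3`) it is `≥ 0` because
`(N - 1 + t)^2 ≤ N (N - 1) (1 - t)`: this says `t (N + 2) + t^2 / (N - 1) ≤ 1`, and
`t (N + 2) ≤ (k - N) (N + 2) / (k^2 + 1) ≤ (k + 2)^2 / (4 (k^2 + 1)) ≤ 5/8` (`k ≥ 3`),
`t ≤ (k - 2) / (k^2 + 1) ≤ 1/6`. -/
def S_ABT : Prop := ∀ (Z Y : Type) [Fintype Z] [Fintype Y] (ζ : Z → ℝ) (ξ : Y → ℝ) (κ : Z → ℝ)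
  (N k b : ℕ), 1 ≤ N → 2 ≤ k → k ^ 2 < b → b + N ≤ k ^ 2 + k → Fintype.card Z ≤ b →
  (∀ z, 0 ≤ ζ z) → (∀ l, 0 ≤ ξ l) → (∀ z, (b : ℝ) + N - k ≤ κ z) →
  (∀ θ : ℝ, 0 ≤ θ → min (univ.filter (fun z => θ < ζ z)).card (k ^ 2) ≤
      (univ.filter (fun l => θ < ξ l)).card) →
  - (1 / (2 * (k : ℝ))) ≤
    (N : ℝ) * ((N : ℝ) - 1) - 2 * (N : ℝ) * ∑ z, ζ z + 2 * ∑ l, ξ l + ∑ z, κ z * (ζ z) ^ 2

/-- PT. The contribution of `x` is nonnegative if for every `θ ≥ 0` at least `|lowS θ|` lines miss `x`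
and meet `lowS V γ x θ`. To be proved from CB and ABS: `theorem t_PT (h1 : S_CB) (h2 : S_ABS) : S_PT`.
Proof: let `N = NN L X x`. If `N = 0` then `trm = 2 eta + Qx ≥ 0`. Let `N ≥ 1`. Apply ABS with
`Z = {z ∈ V | γ z < γ x}` (or `V`), `ζ z = γ x - γ z` (its maximum with `0`), `Y = {l ∈ L | x ∉ l}`,
`ξ l = max (γ x - γ (X l)) 0`, `k z = |V| - |l|` for the line `l` through `x` and `z`. Then
`bet = ∑ ζ`, `eta = ∑ ξ`, `Qx = ∑ k z (ζ z)^2` (every `z ≠ x` is on exactly one line through `x`). For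
`θ ≥ 0` a line `l` missing `x` has `θ < ξ l` iff it meets `lowS V γ x θ` (as `X l` is a lowest point of
`l`). Last hypothesis of ABS: let `z` with `θ < ζ z`, `M` the line through `x, z`, `A` the set of the
`N` lines `l` with `X l = x`: on these `γ ≥ γ x`, so they do not meet `lowS θ` and `M ∉ A`. CB gives
`N |lowS θ| + N |M| ≤ |mis L x (lowS θ)| + N |V|`. -/
def S_PT : Prop := ∀ (P : Type) [DecidableEq P] (V : Finset P) (L : Finset (Finset P))
  (γ : P → ℝ) (X : Finset P → P) (x : P), IsLS V L → IsLow L γ X → x ∈ V →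
  (∀ θ : ℝ, 0 ≤ θ → (lowS V γ x θ).card ≤ (mis L x (lowS V γ x θ)).card) →
  0 ≤ trm V L γ X x

/-- PTT. The contribution of `x` in the near-projective case. To be proved from ABT:
`theorem t_PTT (h : S_ABT) : S_PTT`. Proof: let `N = NN L X x`; for `N = 0` the contribution is
`2 eta + Qx ≥ 0`. Let `N ≥ 1`, `Z = lowS V γ x 0 = {z ∈ V | γ z < γ x}`, `b = |Z|`,
`ζ z = γ x - γ z`, `Y = {l ∈ L | x ∉ l}`, `ξ l = max (γ x - γ (X l)) 0`, `κ z = |V| - |l|` for the
line `l` through `x, z`. The `N` lines with `X l = x` are disjoint from `Z` and have pairwise only `x`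
in common, so `|V| ≥ b + 1 + N`. So `b + N ≤ |V| - 1 ≤ k^2 + k` and `κ z ≥ |V| - (k + 1) ≥ b + N - k`.
For `θ ≥ 0` the lines missing `x` with `θ < ξ l` are `mis L x (lowS V γ x θ)`. Apply ABT. -/
def S_PTT : Prop := ∀ (P : Type) [DecidableEq P] (V : Finset P) (L : Finset (Finset P))
  (γ : P → ℝ) (X : Finset P → P) (x : P) (k : ℕ), IsLS V L → IsLow L γ X → x ∈ V → 2 ≤ k →
  (∀ l ∈ L, x ∈ l → l.card ≤ k + 1) → V.card ≤ k ^ 2 + k + 1 → k ^ 2 < (lowS V γ x 0).card →
  (∀ θ : ℝ, 0 ≤ θ →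
    min (lowS V γ x θ).card (k ^ 2) ≤ (mis L x (lowS V γ x θ)).card) →
  - (1 / (2 * (k : ℝ))) ≤ trm V L γ X x

/-- LOCX. The local inequality for a deterministic choice. To be proved from the steps before:
`theorem t_LOCX (h1 : S_C1) (h2 : S_TC) (h3 : S_NP) (h4 : S_DEC) (h5 : S_LOW) (h6 : S_PT)
(h7 : S_PTT) : S_LOCX`.
Proof: if there is a line `M` and `x ∈ M`, `|M| = 2`, with the other point of `M` on exactly two lines,
then by TC (4) `V` is a line plus `x`, `LamX ≤ 0` by NP, `QQ ≥ 0`, and `coll ≥ 2`: the terms of `coll`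
are `N (N - 1) ≥ 0`, and on the set of the lowest points they equal `trm`, sum `≥ 2` by LOW. Suppose
this does not happen. By DEC we need `∑ trm ≥ 3/2`, the lowest points give `≥ 2`. Let `x` be another
point. If `NN L X x = 0` the contribution is `≥ 0`. Let `NN ≥ 1`: there is a line through `x` on which
`γ ≥ γ x`, so there is `y ≠ x`, `y ∈ V`, `y ∉ lowS V γ x θ` for all `θ ≥ 0`. If
`|lowS θ| ≤ |mis L x (lowS θ)|` for all `θ ≥ 0` then PT. Call `x` bad if this fails for some `θ ≥ 0`.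
Then C1 (for `S = lowS θ`) gives `M` through `x` with `M \ {x} ⊆ lowS θ`, `k = |M| - 1`, all points of
`M \ {x}` on exactly `|M|` lines; `k ≥ 2` by the assumption above, TC: all lines through `x` have at
most `k + 1` points, `|V| ≤ k^2 + k + 1`, and `k^2 ≤ |mis L x (lowS θ)| < |lowS θ| ≤ |lowS 0|`. For
every other `θ' ≥ 0` either `|lowS θ'| ≤ |mis|` or C1, TC give a line `M'` of the same kind, with
`|M'| = |M|` (each is a longest line through `x`), so `k^2 ≤ |mis L x (lowS θ')|`. So PTT gives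
contribution `≥ - 1 / (2 k)`. The number `k` is the same for all bad points (`k^2 < |V| - 1 ≤ k^2 + k`:
`x` and `y` are not in `lowS 0`, so `|V| ≥ k^2 + 3`). There are at most `k` bad points: let `x0` be a
bad point with least `γ`; all bad points are outside `lowS V γ x0 0`, which has more than `k^2`
elements, so their number is at most `|V| - k^2 - 1 ≤ k`. So all bad points together contribute
`≥ - 1/2`, total `≥ 2 - 1/2`. -/
def S_LOCX : Prop := ∀ (P : Type) [DecidableEq P] (V : Finset P) (L : Finset (Finset P))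
  (γ : P → ℝ) (X : Finset P → P), IsLS V L → IsLow L γ X → (∃ x ∈ V, ∃ y ∈ V, γ x ≠ γ y) →
  3 / 2 ≤ coll V L X - 2 * LamX V L γ X + QQ V L γ

/-- EXP. Expected number of collisions of independent choices.
Proof: the number of collisions is `∑_{i ≠ j} [X i = X j]` and by `Finset.prod_univ_sum` the sum of
`∏ c i (X i)` over the `X` with `X i = X j = x` is `c i x * c j x`, for `i ≠ j`. -/
def S_EXP : Prop := ∀ (ι P : Type) [Fintype ι] [DecidableEq ι] [Fintype P] [DecidableEq P]
  (T : ι → Finset P) (c : ι → P → ℝ), (∀ i, ∑ x ∈ T i, c i x = 1) →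
  (∀ i x, x ∉ T i → c i x = 0) →
  ∑ x, ((∑ i, c i x) ^ 2 - ∑ i, (c i x) ^ 2) =
    ∑ X ∈ Fintype.piFinset T, (∏ i, c i (X i)) *
      ∑ x, (((univ.filter (fun i => X i = x)).card : ℝ) *
        (((univ.filter (fun i => X i = x)).card : ℝ) - 1))

open Classical in
/-- SW. At most a quarter of the weight is on the injective choices.
Proof: an injective choice `X` is a bijection of `ι` onto `V`. For `X` injective, `i ∈ ι` and
`y ∈ T i`, `y ≠ X i` let `X'` be `X` with the value at `i` replaced by `y`: not injective (`y` is also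
the value at another `j`). Different triples `(X, i, y)` give different `X'`: in `X'` exactly one
point `y` is chosen twice, by `i` and `j`, and exactly one point `w = X i` of `V` is not chosen; to get
back a bijection by changing one value one must change the value at `i` or at `j` to `w`, and `w ∈ T j`
is impossible since then `T i, T j` have the two common points `w, y`. The weight of `X'` is that of
`X` times `h y / h (X i)`. So the weight of the not injective choices is at least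
`∑_X weight X * ∑_i ∑_{y ∈ T i, y ≠ X i} h y / h (X i)`, and it is enough that the last double sum is
at least `3` for every injective `X`. For `w ∈ V` let `i = X⁻¹ w` and `p w` some point of `T i` other
than `w`. So `p w ≠ w`, and `p (p w) = w` is impossible (`T i` and `T j` would both contain `w` and
`p w`, `i ≠ j`). Let `C` be a nonempty subset of `V` of least size with `p '' C ⊆ C`; then
`p '' C = C`, `p` is a permutation of `C`, and `|C| ≥ 3` (`w, p w, p (p w)` are different). So the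
double sum is at least `∑_{w ∈ C} h (p w) / h w ≥ ∑_{w ∈ C} (1 + log (h (p w)) - log (h w)) = |C|`. -/
def S_SW : Prop := ∀ (ι P : Type) [Fintype ι] [DecidableEq ι] [Nonempty ι] [Fintype P]
  [DecidableEq P] (V : Finset P) (T : ι → Finset P) (h : P → ℝ), (∀ x, 0 < h x) →
  Fintype.card ι = V.card → (∀ i, T i ⊆ V) → (∀ i, 2 ≤ (T i).card) →
  (∀ i j, i ≠ j → (T i ∩ T j).card ≤ 1) →
  4 * ∑ X ∈ (Fintype.piFinset T).filter (fun X => Function.Injective X), ∏ i, h (X i) ≤
    ∑ X ∈ Fintype.piFinset T, ∏ i, h (X i)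

/-- H32. Choices proportional to a positive function have at least `3/2` expected collisions. To be
proved: `theorem t_H32 (h1 : S_EXP) (h2 : S_SW) (h3 : S_DBE) : S_H32`. Proof: `ι = L` (subtype), `T` the
inclusion; `c l x = h x / ∑_{y ∈ l} h y`, product of the denominators `D`; `∑_X ∏ h (X l) = D`. The
number of collisions `∑_x N (N - 1)` of a choice is `≥ 0`, and `≥ 2` if the choice is not injective. By
EXP (points outside `V` are never chosen) `PP ≥ 2 (1 - weight of the injective choices)`. If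
`|V| < |L|` no choice is injective, if `|V| = |L|` then SW; `|V| ≤ |L|` by DBE. -/
def S_H32 : Prop := ∀ (P : Type) [Fintype P] [DecidableEq P] (V : Finset P)
  (L : Finset (Finset P)), IsLS V L → ∀ h : P → ℝ, (∀ x, 0 < h x) → 3 / 2 ≤ PP V L (hc h)

/-- VERT. Some deterministic choice in the support has at most the expected number of collisions. To be
proved: `theorem t_VERT (h : S_EXP) : S_VERT`. Proof: EXP with `ι = L` (subtype); the weights
`∏ c l (X l)` are `≥ 0` with sum `1` (`Finset.prod_univ_sum`), so some `X` of positive weight has at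
most the average number of collisions. Extend `X` to all finite sets in any way. -/
def S_VERT : Prop := ∀ (P : Type) [Fintype P] [DecidableEq P] (V : Finset P)
  (L : Finset (Finset P)), IsLS V L → ∀ c : Finset P → P → ℝ, IsCh L c →
  ∃ X : Finset P → P, (∀ l ∈ L, X l ∈ l ∧ c l (X l) ≠ 0) ∧ coll V L X ≤ PP V L c

/-- LOC. The local inequality. To be proved:
`theorem t_LOC (h1 : S_VERT) (h2 : S_LOCX) : S_LOC`. Proof: if `γ` is constant on `V` then
`LamC = 0` (the distributions have sum `1`) and `QQ = 0`. Else take `X` from VERT; it is a choice of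
lowest points, `LamC = LamX` since `∑_{x ∈ l} c l x * γ x = γ (X l)` (all `x` with `c l x ≠ 0` have the
least value of `γ` on `l`), and LOCX. -/
def S_LOC : Prop := ∀ (P : Type) [Fintype P] [DecidableEq P] (V : Finset P)
  (L : Finset (Finset P)), IsLS V L → ∀ c : Finset P → P → ℝ, IsCh L c → ∀ γ : P → ℝ,
  (∀ l ∈ L, ∀ x ∈ l, c l x ≠ 0 → ∀ y ∈ l, γ x ≤ γ y) → 3 / 2 ≤ PP V L c →
  3 / 2 ≤ PP V L c - 2 * LamC V L γ c + QQ V L γ

/-- GIB. Fixed point. Proof: minimise `Ψ u = ∑_{l ∈ L} log (∑_{y ∈ l} exp (u y)) + (ε / 2) ∑ (u x)^2`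
over `P → ℝ`. It is continuous and tends to infinity (`log (∑_{y ∈ l} exp (u y)) ≥ u y0` for a point
`y0 ∈ l`), so there is a minimum, and the derivative with respect to `u x` there is
`∑_{l ∋ x} exp (u x) / ∑_{y ∈ l} exp (u y) + ε u x = 0`. -/
def S_GIB : Prop := ∀ (P : Type) [Fintype P] [DecidableEq P] (L : Finset (Finset P)),
  (∀ l ∈ L, l.Nonempty) → ∀ ε : ℝ, 0 < ε →
  ∃ u : P → ℝ, ∀ x, ε * u x + gg L (hc (fun y => Real.exp (u y))) x = 0

/-- LIM. Limit of the fixed points. To be proved: `theorem t_LIM (h : S_GIB) : S_LIM`.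
Proof: for `ε = 1 / (n + 1)` let `u n` be as in GIB, `c n = hc (exp (u n))`, all entries in `[0, 1]`. By
compactness a subsequence converges, to `c ∈ K`. For `l ∈ L` the sums over `l` are `1` (`l` nonempty).
If `x, y ∈ l` and `gg L c y < gg L c x`, then for large `n` (in the subsequence)
`gg L (c n) x - gg L (c n) y ≥ δ > 0`, and `c n l x ≤ exp (u n x - u n y) =
exp (- (gg L (c n) x - gg L (c n) y) / ε) ≤ exp (- δ / ε) → 0`, so `c l x = 0`. -/
def S_LIM : Prop := ∀ (P : Type) [Fintype P] [DecidableEq P] (L : Finset (Finset P)),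
  (∀ l ∈ L, l.Nonempty) → ∀ K : Set (Finset P → P → ℝ), IsClosed K →
  (∀ h : P → ℝ, (∀ x, 0 < h x) → hc h ∈ K) →
  ∃ c ∈ K, IsCh L c ∧ ∀ l ∈ L, ∀ x ∈ l, c l x ≠ 0 → ∀ y ∈ l, gg L c x ≤ gg L c y

/-- G1. Proof: `(∑ c l x)^2 - ∑ (c l x)^2` is the sum over the ordered pairs of different lines `l, l'`
through `x` of `c l x * c l' x`, and for such a pair there is exactly one plane that contains both
(`Geo.plane_two_lines`); `c l x = 0` if `x ∉ l`. -/
def S_G1 : Prop := ∀ (P : Type) [Fintype P] [DecidableEq P] (G : Geo P) (c : Finset P → P → ℝ),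
  (∀ l x, x ∉ l → c l x = 0) →
  ∑ x, (gg G.L c x) ^ 2 = ∑ l ∈ G.L, ∑ x ∈ l, (c l x) ^ 2 + ∑ h ∈ G.H, PP h (inn G.L h) c

/-- G2. Proof: a line `l` and a point `z ∉ l` are in exactly one common plane (`ex_plane`,
`uniq_plane`). -/
def S_G2 : Prop := ∀ (P : Type) [Fintype P] [DecidableEq P] (G : Geo P) (γ : P → ℝ)
  (c : Finset P → P → ℝ),
  ∑ h ∈ G.H, LamC h (inn G.L h) γ c =
    ∑ l ∈ G.L, ∑ z ∈ univ \ l, ((∑ x ∈ l, c l x * γ x) - γ z)

/-- G3. Proof: for a line `l`, the sum of `|h| - |l|` over the planes `h ⊇ l` is `|P| - |l|`, because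
every point not on `l` is in exactly one plane that contains `l`. -/
def S_G3 : Prop := ∀ (P : Type) [Fintype P] [DecidableEq P] (G : Geo P) (γ : P → ℝ),
  ∑ h ∈ G.H, QQ h (inn G.L h) γ =
    (1 / 2) * ∑ l ∈ G.L, ((Fintype.card P : ℝ) - l.card) * ∑ x ∈ l, ∑ z ∈ l, (γ x - γ z) ^ 2

/-- GA. The global inequality. To be proved:
`theorem t_GA (h1 : S_G1) (h2 : S_G2) (h3 : S_G3) : S_GA`.
Proof: `n = |P|`, `g x = gg G.L c x`, `γ = g / n`, `t = |G.L| = ∑ g x`. If `n = 0` all is `0`. Let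
`V = ∑ (g x)^2 - t^2 / n = (1 / (2 n)) ∑_{x, y} (g x - g y)^2`.
(a) `∑_h LamC ≥ V`: by G2 it is `∑_l ((n - |l|) g' l - ∑_{z ∉ l} γ z)` with
`g' l = ∑_{x ∈ l} c l x * γ x`, that is `n ∑_l g' l - t ∑ γ + ∑_l (∑_{z ∈ l} γ z - |l| g' l)`; here
`n ∑_l g' l = ∑_x (g x)^2`, `t ∑ γ = t^2 / n`, and `g' l ≤ γ z` for all `z ∈ l` by the hypothesis on
the support.
(b) `∑_h QQ ≤ V`: by G3, `|l| ≥ 0`, and since every two different points are on exactly one line,
`∑_h QQ ≤ (n / 2) ∑_{x, y} (γ x - γ y)^2 = V`.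
(c) Sum the local inequality over the planes: `∑_h PP ≥ (3/2) |H| + 2 ∑ LamC - ∑ QQ ≥
(3/2) |H| + 2 V - V`. With G1: `∑ (g x)^2 ≥ ∑_l ∑_{x ∈ l} (c l x)^2 + (3/2) |H| + V`, so
`t^2 / n ≥ ∑_l ∑ (c l x)^2 + (3/2) |H| ≥ ∑_l 1 / |l| + (3/2) |H|` (Cauchy-Schwarz for each line). -/
def S_GA : Prop := ∀ (P : Type) [Fintype P] [DecidableEq P] (G : Geo P) (c : Finset P → P → ℝ),
  IsCh G.L c → (∀ l ∈ G.L, ∀ x ∈ l, c l x ≠ 0 → ∀ y ∈ l, gg G.L c x ≤ gg G.L c y) →
  (∀ h ∈ G.H, 3 / 2 ≤ PP h (inn G.L h) c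
    - 2 * LamC h (inn G.L h) (fun x => gg G.L c x / Fintype.card P) c
    + QQ h (inn G.L h) (fun x => gg G.L c x / Fintype.card P)) →
  3 / 2 * (Fintype.card P : ℝ) * G.H.card + (Fintype.card P : ℝ) * ∑ l ∈ G.L, 1 / (l.card : ℝ) ≤
    (G.L.card : ℝ) ^ 2

/-- FIN. To be proved: `theorem t_FIN (h1 : S_PL) (h2 : S_H32) (h3 : S_LIM) (h4 : S_LOC)
(h5 : S_GA) : S_FIN`. Proof: LIM with `K = {c | ∀ h ∈ G.H, 3/2 ≤ PP h (inn G.L h) c}`, which is closed
(`PP` is continuous in `c`) and contains all `hc h` by H32 and PL. Then LOC for every plane with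
`γ = gg / n` (`n > 0` if there is a plane), and GA. -/
def S_FIN : Prop := ∀ (P : Type) [Fintype P] [DecidableEq P] (G : Geo P),
  3 / 2 * (Fintype.card P : ℝ) * G.H.card + (Fintype.card P : ℝ) * ∑ l ∈ G.L, 1 / (l.card : ℝ) ≤
    (G.L.card : ℝ) ^ 2

/-- M1. Proof: `(n - 2) / |l| ≥ (n - |l|) / |l| = ∑_{h ⊇ l} (|h| - |l|) / |l|` (every point off `l` is in
exactly one plane containing `l`), so the right side is at least
`∑_h ∑_{l ⊆ h} (|h| - |l|) / |l|`, and each inner sum is at least `3/2`: in `h` there are three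
noncollinear points, their three lines have sizes `a, b, c ≥ 2`, `|h| ≥ a + b + c - 3`, and
`(b + c - 3)/a + (a + c - 3)/b + (a + b - 3)/c ≥ 6 - 3 (1/a + 1/b + 1/c) ≥ 3/2`. Equality: then
`(n - 2) / |l| = (n - |l|) / |l|` for all lines, so all lines have two points, and then the inner sum
is `|h| (|h| - 1) (|h| - 2) / 4`, which is more than `3/2` if `|h| ≥ 4`. -/
def S_M1 : Prop := ∀ (P : Type) [Fintype P] [DecidableEq P] (G : Geo P),
  3 / 2 * (G.H.card : ℝ) ≤ ((Fintype.card P : ℝ) - 2) * ∑ l ∈ G.L, 1 / (l.card : ℝ) ∧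
  (3 / 2 * (G.H.card : ℝ) = ((Fintype.card P : ℝ) - 2) * ∑ l ∈ G.L, 1 / (l.card : ℝ) →
    ∀ h ∈ G.H, h.card = 3)

/-- R3. The points, lines and planes of a finite set in space form a `Geo`, transported to `Fin n`.
Proof: number the points; lines = sets of the (numbers of the) points of `S` on the affine span of two
different points of `S`, planes = the same with three noncollinear points. The spans are determined by
their traces on `S`, so the numbers agree with the `ncard`s. The axioms are elementary affine geometry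
(the span of two points of a plane is inside the plane; a line and a point off it are in exactly one
plane; a plane through three noncollinear points of itself is their span, by dimension). -/
def S_R3 : Prop := ∀ S : Finset (EuclideanSpace ℝ (Fin 3)), ∃ (n : ℕ) (G : Geo (Fin n)),
  n = S.card ∧
  G.L.card = {L : AffineSubspace ℝ (EuclideanSpace ℝ (Fin 3)) |
            ∃ x ∈ S, ∃ y ∈ S, x ≠ y ∧
              L = affineSpan ℝ ({x, y} : Set (EuclideanSpace ℝ (Fin 3)))}.ncard ∧
  G.H.card = {P : AffineSubspace ℝ (EuclideanSpace ℝ (Fin 3)) |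
            ∃ x ∈ S, ∃ y ∈ S, ∃ z ∈ S,
              ¬ Collinear ℝ ({x, y, z} : Set (EuclideanSpace ℝ (Fin 3))) ∧
              P = affineSpan ℝ ({x, y, z} : Set (EuclideanSpace ℝ (Fin 3)))}.ncard

end Pool.Agent.Q25.PLP
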