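import Mathlib
import Pool.Agent.Helper123.PLP.Geo

/-!
# Points, lines and planes: definitions

`Geo P` (points, lines and planes of a finite geometry) is `Pool.Agent.Helper123.PLP.Geo`.
-/

set_option autoImplicit false

open Finset Pool.Agent.Helper123.PLP

namespace Pool.Agent.Q25.PLP

/-- finite linear space of rank three: the points are `V`, the lines are `L`, every two points are on
exactly one line, every line misses some point -/
structure IsLS {P : Type} [DecidableEq P] (V : Finset P) (L : Finset (Finset P)) : Prop where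
  sub : ∀ l ∈ L, l ⊆ V
  two_le : ∀ l ∈ L, 2 ≤ l.card
  ex : ∀ x ∈ V, ∀ y ∈ V, x ≠ y → ∃ l ∈ L, x ∈ l ∧ y ∈ l
  uniq : ∀ l ∈ L, ∀ l' ∈ L, ∀ x y : P, x ≠ y → x ∈ l → y ∈ l → x ∈ l' → y ∈ l' → l = l'
  ncol : ∀ l ∈ L, ∃ z ∈ V, z ∉ l
  ne : L.Nonempty

section comb
variable {P : Type} [DecidableEq P]

/-- the lines through `z` -/
def thr (L : Finset (Finset P)) (z : P) : Finset (Finset P) := L.filter (fun l => z ∈ l)

/-- the lines meeting `S` -/
def mee (L : Finset (Finset P)) (S : Finset P) : Finset (Finset P) :=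
  L.filter (fun l => (l ∩ S).Nonempty)

/-- the lines missing `x` and meeting `S` -/
def mis (L : Finset (Finset P)) (x : P) (S : Finset P) : Finset (Finset P) :=
  L.filter (fun l => x ∉ l ∧ (l ∩ S).Nonempty)

/-- the number of lines that choose `x` -/
def NN (L : Finset (Finset P)) (X : Finset P → P) (x : P) : ℕ := (L.filter (fun l => X l = x)).card

/-- the number of ordered pairs of different lines that choose the same point -/
noncomputable def coll (V : Finset P) (L : Finset (Finset P)) (X : Finset P → P) : ℝ :=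
  ∑ x ∈ V, (NN L X x : ℝ) * ((NN L X x : ℝ) - 1)

/-- every line chooses one of its points with the least value of `γ` -/
def IsLow (L : Finset (Finset P)) (γ : P → ℝ) (X : Finset P → P) : Prop :=
  ∀ l ∈ L, X l ∈ l ∧ ∀ z ∈ l, γ (X l) ≤ γ z

noncomputable def LamX (V : Finset P) (L : Finset (Finset P)) (γ : P → ℝ) (X : Finset P → P) : ℝ :=
  ∑ l ∈ L, ∑ z ∈ V \ l, (γ (X l) - γ z)

noncomputable def QQ (V : Finset P) (L : Finset (Finset P)) (γ : P → ℝ) : ℝ :=
  (1 / 2) * ∑ l ∈ L, ((V.card : ℝ) - l.card) * ∑ x ∈ l, ∑ z ∈ l, (γ x - γ z) ^ 2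

/-- the set of the points of `V` whose value is less than `γ x - θ` -/
noncomputable def lowS (V : Finset P) (γ : P → ℝ) (x : P) (θ : ℝ) : Finset P :=
  V.filter (fun z => θ < γ x - γ z)

noncomputable def bet (V : Finset P) (γ : P → ℝ) (x : P) : ℝ := ∑ z ∈ V, max (γ x - γ z) 0

noncomputable def eta (L : Finset (Finset P)) (γ : P → ℝ) (X : Finset P → P) (x : P) : ℝ :=
  ∑ l ∈ L.filter (fun l => x ∉ l), max (γ x - γ (X l)) 0

noncomputable def Qx (V : Finset P) (L : Finset (Finset P)) (γ : P → ℝ) (x : P) : ℝ :=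
  ∑ l ∈ thr L x, ((V.card : ℝ) - l.card) * ∑ z ∈ l, (max (γ x - γ z) 0) ^ 2

/-- the contribution of the point `x` -/
noncomputable def trm (V : Finset P) (L : Finset (Finset P)) (γ : P → ℝ) (X : Finset P → P)
    (x : P) : ℝ :=
  (NN L X x : ℝ) * ((NN L X x : ℝ) - 1) - 2 * (NN L X x : ℝ) * bet V γ x + 2 * eta L γ X x
    + Qx V L γ x

/-- `c l` is a probability distribution on the points of `l`, for every line `l ∈ L` -/
structure IsCh (L : Finset (Finset P)) (c : Finset P → P → ℝ) : Prop where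
  nn : ∀ l x, 0 ≤ c l x
  off : ∀ l x, x ∉ l → c l x = 0
  one : ∀ l ∈ L, ∑ x ∈ l, c l x = 1

/-- expected number of ordered pairs of different lines that choose the same point -/
noncomputable def PP (V : Finset P) (L : Finset (Finset P)) (c : Finset P → P → ℝ) : ℝ :=
  ∑ x ∈ V, ((∑ l ∈ L, c l x) ^ 2 - ∑ l ∈ L, (c l x) ^ 2)

noncomputable def LamC (V : Finset P) (L : Finset (Finset P)) (γ : P → ℝ)
    (c : Finset P → P → ℝ) : ℝ :=
  ∑ l ∈ L, ∑ z ∈ V \ l, ((∑ x ∈ l, c l x * γ x) - γ z)

/-- the choice with probabilities proportional to `h` -/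
noncomputable def hc (h : P → ℝ) (l : Finset P) (x : P) : ℝ :=
  if x ∈ l then h x / ∑ y ∈ l, h y else 0

/-- expected number of lines that choose `x` -/
noncomputable def gg (L : Finset (Finset P)) (c : Finset P → P → ℝ) (x : P) : ℝ := ∑ l ∈ L, c l x

end comb

end Pool.Agent.Q25.PLP
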