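import Mathlib
import Pool.Agent.Q25.PLP.Stm

/-!
# Finite sets of points in space
-/

set_option autoImplicit false

open Finset Pool.Agent.Helper123.PLP

namespace Pool.Agent.Q25.PLP

/-- the strict inequality for a finite set of points in space -/
theorem euc_strict (h1 : S_FIN) (h2 : S_R3) (S : Finset (EuclideanSpace ℝ (Fin 3)))
    (h3 : 2 ≤ S.card) :
    3 / 2 * (S.card : ℝ) *
          ({P : AffineSubspace ℝ (EuclideanSpace ℝ (Fin 3)) |
            ∃ x ∈ S, ∃ y ∈ S, ∃ z ∈ S,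
              ¬ Collinear ℝ ({x, y, z} : Set (EuclideanSpace ℝ (Fin 3))) ∧
              P = affineSpan ℝ ({x, y, z} : Set (EuclideanSpace ℝ (Fin 3)))}.ncard : ℝ)
        < ({L : AffineSubspace ℝ (EuclideanSpace ℝ (Fin 3)) |
            ∃ x ∈ S, ∃ y ∈ S, x ≠ y ∧
              L = affineSpan ℝ ({x, y} : Set (EuclideanSpace ℝ (Fin 3)))}.ncard : ℝ) ^ 2 := by
  obtain ⟨n, G, hn, hL, hH⟩ := h2 S
  have a := h1 (Fin n) G
  rw [Fintype.card_fin] at a
  rw [← hL, ← hH, ← hn]
  have hpos : 0 < (n : ℝ) * ∑ l ∈ G.L, 1 / (l.card : ℝ) := by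
    apply mul_pos
    · have : 0 < n := by omega
      exact_mod_cast this
    · apply Finset.sum_pos
      · intro l hl
        have := G.two_le l hl
        have h4 : (0 : ℝ) < l.card := by exact_mod_cast (by omega : 0 < l.card)
        positivity
      · obtain ⟨x, y, hxy⟩ : ∃ x y : Fin n, x ≠ y := by
          refine ⟨⟨0, by omega⟩, ⟨1, by omega⟩, ?_⟩
          intro h
          have := congrArg Fin.val h
          simp at this
        obtain ⟨l, hl, -, -⟩ := G.ex_line x y hxy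
        exact ⟨l, hl⟩
  linarith

/-- the inequality `3 p π ≤ 2 l ^ 2` in natural numbers -/
theorem euc_nat (h1 : S_FIN) (h2 : S_R3) (S : Finset (EuclideanSpace ℝ (Fin 3))) :
      3 * S.card *
          {P : AffineSubspace ℝ (EuclideanSpace ℝ (Fin 3)) |
            ∃ x ∈ S, ∃ y ∈ S, ∃ z ∈ S,
              ¬ Collinear ℝ ({x, y, z} : Set (EuclideanSpace ℝ (Fin 3))) ∧
              P = affineSpan ℝ ({x, y, z} : Set (EuclideanSpace ℝ (Fin 3)))}.ncard
        ≤ 2 *
          ({L : AffineSubspace ℝ (EuclideanSpace ℝ (Fin 3)) |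
            ∃ x ∈ S, ∃ y ∈ S, x ≠ y ∧
              L = affineSpan ℝ ({x, y} : Set (EuclideanSpace ℝ (Fin 3)))}.ncard) ^ 2 := by
  obtain ⟨n, G, hn, hL, hH⟩ := h2 S
  have a := h1 (Fin n) G
  rw [Fintype.card_fin] at a
  rw [← hL, ← hH, ← hn]
  have hpos : 0 ≤ (n : ℝ) * ∑ l ∈ G.L, 1 / (l.card : ℝ) := by positivity
  have : 3 * (n : ℝ) * (G.H.card : ℝ) ≤ 2 * (G.L.card : ℝ) ^ 2 := by linarith
  exact_mod_cast this

end Pool.Agent.Q25.PLP
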