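import Mathlib
import Pool.Agent.Helper123.PLP.Geo

/-!
# Transport of points, lines and planes along a bijection of the points
-/

set_option autoImplicit false

open Finset Pool.Agent.Helper123.PLP

namespace Pool.Agent.Q25.PLP

universe u v

section
variable {P : Type u} {Q : Type v} [Fintype P] [DecidableEq P] [Fintype Q] [DecidableEq Q]

/-- the bijection on the finite sets -/
def tm (e : P ≃ Q) : Finset P ↪ Finset Q :=
  ⟨fun s => s.map e.toEmbedding, Finset.map_injective _⟩

lemma mem_tm (e : P ≃ Q) (s : Finset P) (y : Q) : y ∈ tm e s ↔ e.symm y ∈ s := by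
  change y ∈ s.map e.toEmbedding ↔ _
  rw [Finset.mem_map_equiv]

lemma tm_sub (e : P ≃ Q) (s t : Finset P) : tm e s ⊆ tm e t ↔ s ⊆ t := by
  change s.map e.toEmbedding ⊆ t.map e.toEmbedding ↔ _
  exact Finset.map_subset_map

lemma card_tm (e : P ≃ Q) (s : Finset P) : (tm e s).card = s.card := by
  change (s.map e.toEmbedding).card = _
  exact Finset.card_map _

/-- transport -/
def trGeo (e : P ≃ Q) (G : Geo P) : Geo Q where
  L := G.L.map (tm e)
  H := G.H.map (tm e)
  two_le := by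
    intro l hl
    rcases Finset.mem_map.mp hl with ⟨l, hl0, rfl⟩
    clear hl
    rename' hl0 => hl
    rw [card_tm]
    exact G.two_le l hl
  ex_line := by
    intro x y hxy
    obtain ⟨l, hl, h1, h2⟩ := G.ex_line (e.symm x) (e.symm y) (fun h => hxy (e.symm.injective h))
    exact ⟨tm e l, Finset.mem_map_of_mem _ hl, (mem_tm e l x).mpr h1, (mem_tm e l y).mpr h2⟩
  uniq_line := by
    intro l hl l' hl' x y hxy hx hy hx' hy'
    rcases Finset.mem_map.mp hl with ⟨l, hl0, rfl⟩
    clear hl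
    rename' hl0 => hl
    rcases Finset.mem_map.mp hl' with ⟨l', hl0, rfl⟩
    clear hl'
    rename' hl0 => hl'
    rw [mem_tm] at hx hy hx' hy'
    rw [G.uniq_line l hl l' hl' (e.symm x) (e.symm y) (fun h => hxy (e.symm.injective h))
      hx hy hx' hy']
  ex_plane := by
    intro l hl x hx
    rcases Finset.mem_map.mp hl with ⟨l, hl0, rfl⟩
    clear hl
    rename' hl0 => hl
    rw [mem_tm] at hx
    obtain ⟨h, hh, h1, h2⟩ := G.ex_plane l hl _ hx
    exact ⟨tm e h, Finset.mem_map_of_mem _ hh, (tm_sub e l h).mpr h1, (mem_tm e h x).mpr h2⟩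
  uniq_plane := by
    intro l hl x hx h hh h' hh' h1 h2 h3 h4
    rcases Finset.mem_map.mp hl with ⟨l, hl0, rfl⟩
    clear hl
    rename' hl0 => hl
    rcases Finset.mem_map.mp hh with ⟨h, hh0, rfl⟩
    clear hh
    rename' hh0 => hh
    rcases Finset.mem_map.mp hh' with ⟨h', hh0, rfl⟩
    clear hh'
    rename' hh0 => hh'
    rw [mem_tm] at hx h2 h4
    rw [tm_sub] at h1 h3
    rw [G.uniq_plane l hl _ hx h hh h' hh' h1 h2 h3 h4]
  closed := by
    intro h hh l hl x y hxy hx hy hx' hy'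
    rcases Finset.mem_map.mp hl with ⟨l, hl0, rfl⟩
    clear hl
    rename' hl0 => hl
    rcases Finset.mem_map.mp hh with ⟨h, hh0, rfl⟩
    clear hh
    rename' hh0 => hh
    rw [mem_tm] at hx hy hx' hy'
    rw [tm_sub]
    exact G.closed h hh l hl (e.symm x) (e.symm y) (fun h => hxy (e.symm.injective h))
      hx hy hx' hy'
  nondeg := by
    intro h hh
    rcases Finset.mem_map.mp hh with ⟨h, hh0, rfl⟩
    clear hh
    rename' hh0 => hh
    obtain ⟨l, hl, h1, x, hx, hxl⟩ := G.nondeg h hh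
    refine ⟨tm e l, Finset.mem_map_of_mem _ hl, (tm_sub e l h).mpr h1, e x, ?_, ?_⟩
    · rw [mem_tm, Equiv.symm_apply_apply]; exact hx
    · rw [mem_tm, Equiv.symm_apply_apply]; exact hxl

lemma trGeo_L (e : P ≃ Q) (G : Geo P) : (trGeo e G).L.card = G.L.card := Finset.card_map _

lemma trGeo_H (e : P ≃ Q) (G : Geo P) : (trGeo e G).H.card = G.H.card := Finset.card_map _

lemma trGeo_sum (e : P ≃ Q) (G : Geo P) :
    ∑ l ∈ (trGeo e G).L, 1 / (l.card : ℝ) = ∑ l ∈ G.L, 1 / (l.card : ℝ) := by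
  change ∑ l ∈ G.L.map (tm e), 1 / (l.card : ℝ) = _
  rw [Finset.sum_map]
  exact Finset.sum_congr rfl (fun l _ => by rw [card_tm])

lemma trGeo_three (e : P ≃ Q) (G : Geo P) (h : ∀ k ∈ (trGeo e G).H, k.card = 3) :
    ∀ k ∈ G.H, k.card = 3 := by
  intro k hk
  rw [← card_tm e k]
  exact h _ (Finset.mem_map_of_mem _ hk)

end

end Pool.Agent.Q25.PLP
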