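import Mathlib
import Pool.Agent.Q25.PLP.Tr

/-!
# The points, lines and planes of a finite simple matroid
-/

set_option autoImplicit false

open Finset Pool.Agent.Helper123.PLP

namespace Pool.Agent.Q25.PLP

universe u

section
variable {α : Type u} (M : Matroid α)

lemma fl_eq [M.Finite] {F F' : Set α} (hF : M.IsFlat F) (hF' : M.IsFlat F') (h : F ⊆ F')
    (hr : M.eRk F' ≤ M.eRk F) : F = F' := by
  have := (M.isRkFinite_set F).closure_eq_closure_of_subset_of_eRk_ge_eRk h hr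
  rwa [hF.closure, hF'.closure] at this

/-- simple: every set of at most two elements of the ground set is independent -/
def Simp : Prop := ∀ x ∈ M.E, ∀ y ∈ M.E, M.Indep {x, y}

variable {M}

lemma rk_two (hs : Simp M) {x y : α} (hx : x ∈ M.E) (hy : y ∈ M.E) (hxy : x ≠ y) :
    M.eRk (M.closure {x, y}) = 2 := by
  rw [M.eRk_closure_eq, (hs x hx y hy).eRk_eq_encard, Set.encard_pair hxy]

lemma pair_sub {x y : α} (hx : x ∈ M.E) (hy : y ∈ M.E) : ({x, y} : Set α) ⊆ M.closure {x, y} :=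
  M.subset_closure _ (by
    intro z hz
    rcases hz with rfl | hz
    · exact hx
    · rw [Set.mem_singleton_iff] at hz; rw [hz]; exact hy)

lemma clos_sub {X F : Set α} (hF : M.IsFlat F) (h : X ⊆ F) : M.closure X ⊆ F := by
  have := M.closure_subset_closure h
  rwa [hF.closure] at this

lemma line_eq [M.Finite] (hs : Simp M) {F : Set α} (hF : M.IsFlat F) (hr : M.eRk F = 2) {x y : α}
    (hxy : x ≠ y) (hx : x ∈ F) (hy : y ∈ F) : M.closure {x, y} = F := by
  have hxE := hF.subset_ground hx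
  have hyE := hF.subset_ground hy
  apply fl_eq M (M.isFlat_closure _) hF
  · apply clos_sub hF
    intro z hz
    rcases hz with rfl | hz
    · exact hx
    · rw [Set.mem_singleton_iff] at hz; rw [hz]; exact hy
  · rw [hr, rk_two hs hxE hyE hxy]

lemma rk_ins [M.Finite] {F : Set α} (hF : M.IsFlat F) (hr : M.eRk F = 2) {x : α} (hx : x ∈ M.E)
    (hxF : x ∉ F) : M.eRk (M.closure (insert x F)) = 3 := by
  rw [M.eRk_closure_eq]
  apply le_antisymm
  · have := M.eRk_insert_le_add_one x F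
    rw [hr] at this
    calc M.eRk (insert x F) ≤ 2 + 1 := this
      _ = 3 := by norm_num
  · by_contra hcon
    push Not at hcon
    have h2 : M.eRk (M.closure (insert x F)) ≤ M.eRk F := by
      rw [M.eRk_closure_eq, hr]
      exact ENat.lt_add_one_iff (by norm_num) |>.mp (by
        calc M.eRk (insert x F) < 3 := hcon
          _ = 2 + 1 := by norm_num)
    have hsub : insert x F ⊆ M.closure (insert x F) :=
      M.subset_closure _ (Set.insert_subset hx hF.subset_ground)
    have := fl_eq M hF (M.isFlat_closure _) ((Set.subset_insert x F).trans hsub) h2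
    apply hxF
    rw [this]
    exact hsub (Set.mem_insert x F)

lemma plane_eq [M.Finite] {F K : Set α} (hF : M.IsFlat F) (hr : M.eRk F = 2) (hK : M.IsFlat K)
    (hr' : M.eRk K = 3) {x : α} (hxF : x ∉ F) (hxK : x ∈ K) (h : F ⊆ K) :
    M.closure (insert x F) = K := by
  apply fl_eq M (M.isFlat_closure _) hK
  · exact clos_sub hK (Set.insert_subset hxK h)
  · rw [hr', rk_ins hF hr (hK.subset_ground hxK) hxF]

lemma exists_pair {F : Set α} (hr : 2 ≤ M.eRk F) : ∃ x ∈ F, ∃ y ∈ F, x ≠ y := by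
  have h1 : (1 : ℕ∞) < F.encard := by
    calc (1 : ℕ∞) < 2 := by norm_num
      _ ≤ M.eRk F := hr
      _ ≤ F.encard := M.eRk_le_encard F
  rw [Set.one_lt_encard_iff] at h1
  obtain ⟨x, y, hx, hy, hxy⟩ := h1
  exact ⟨x, hx, y, hy, hxy⟩

lemma exists_off [M.Finite] (hs : Simp M) {K : Set α} (hK : M.IsFlat K) (hr : M.eRk K = 3)
    {x y : α} (hx : x ∈ K) (hy : y ∈ K) (hxy : x ≠ y) : ∃ z ∈ K, z ∉ M.closure {x, y} := by
  by_contra hcon
  push Not at hcon
  have h1 : K ⊆ M.closure {x, y} := hcon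
  have h2 := M.eRk_mono h1
  rw [hr, rk_two hs (hK.subset_ground hx) (hK.subset_ground hy) hxy] at h2
  exact absurd h2 (by norm_num)

variable (M)

noncomputable instance [M.Finite] : Fintype M.E := (M.ground_finite).fintype

noncomputable instance : DecidableEq M.E := Classical.decEq _

open Classical in
/-- the elements in a set -/
noncomputable def pe [M.Finite] (F : Set α) : Finset M.E := univ.filter (fun p => (p : α) ∈ F)

lemma mem_pe [M.Finite] {F : Set α} {p : M.E} : p ∈ pe M F ↔ (p : α) ∈ F := by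
  unfold pe; simp

lemma pe_sub_iff [M.Finite] {F F' : Set α} (hF : F ⊆ M.E) :
    pe M F ⊆ pe M F' ↔ F ⊆ F' := by
  constructor
  · intro h x hx
    have h1 : (⟨x, hF hx⟩ : M.E) ∈ pe M F := (mem_pe M).mpr hx
    exact (mem_pe M).mp (h h1)
  · intro h p hp
    rw [mem_pe] at hp ⊢
    exact h hp

lemma card_pe [M.Finite] {F : Set α} (hF : F ⊆ M.E) : (pe M F).card = F.ncard := by
  have h1 : F = (fun p : M.E => (p : α)) '' (pe M F : Set M.E) := by
    ext x
    simp only [Set.mem_image, Finset.mem_coe, mem_pe]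
    constructor
    · intro hx
      exact ⟨⟨x, hF hx⟩, hx, rfl⟩
    · rintro ⟨p, hp, rfl⟩
      exact hp
  conv_rhs => rw [h1]
  rw [Set.ncard_image_of_injective _ Subtype.val_injective, Set.ncard_coe_finset]

lemma flats_fin [M.Finite] (k : ℕ∞) : {F : Set α | M.IsFlat F ∧ M.eRk F = k}.Finite := by
  apply (M.ground_finite.finite_subsets).subset
  intro F hF
  exact hF.1.subset_ground

/-- the finset of rank `k` flats -/
noncomputable def fls [M.Finite] (k : ℕ∞) : Finset (Set α) := (flats_fin M k).toFinset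

lemma mem_fls [M.Finite] {k : ℕ∞} {F : Set α} : F ∈ fls M k ↔ M.IsFlat F ∧ M.eRk F = k := by
  unfold fls; simp

open Classical in
/-- the simple matroid as a space with lines and planes -/
noncomputable def smGeo [M.Finite] (hs : Simp M) : Geo M.E where
  L := (fls M 2).image (pe M)
  H := (fls M 3).image (pe M)
  two_le := by
    intro l hl
    rw [Finset.mem_image] at hl
    obtain ⟨F, hF, rfl⟩ := hl
    rw [mem_fls] at hF
    obtain ⟨x, hx, y, hy, hxy⟩ := exists_pair (M := M) (F := F) (by rw [hF.2])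
    have : 1 < (pe M F).card := by
      rw [Finset.one_lt_card]
      refine ⟨⟨x, hF.1.subset_ground hx⟩, (mem_pe M).mpr hx, ⟨y, hF.1.subset_ground hy⟩,
        (mem_pe M).mpr hy, ?_⟩
      intro h
      exact hxy (congrArg Subtype.val h)
    omega
  ex_line := by
    intro x y hxy
    have hxy' : (x : α) ≠ y := fun h => hxy (Subtype.ext h)
    have hsub := pair_sub (M := M) x.2 y.2
    refine ⟨pe M (M.closure {(x : α), (y : α)}), ?_, ?_, ?_⟩
    · rw [Finset.mem_image]
      exact ⟨_, (mem_fls M).mpr ⟨M.isFlat_closure _, rk_two hs x.2 y.2 hxy'⟩, rfl⟩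
    · rw [mem_pe]; exact hsub (by simp)
    · rw [mem_pe]; exact hsub (by simp)
  uniq_line := by
    intro l hl l' hl' x y hxy hx hy hx' hy'
    rw [Finset.mem_image] at hl hl'
    obtain ⟨F, hF, rfl⟩ := hl
    obtain ⟨F', hF', rfl⟩ := hl'
    rw [mem_fls] at hF hF'
    rw [mem_pe] at hx hy hx' hy'
    have hxy' : (x : α) ≠ y := fun h => hxy (Subtype.ext h)
    rw [← line_eq hs hF.1 hF.2 hxy' hx hy, ← line_eq hs hF'.1 hF'.2 hxy' hx' hy']
  ex_plane := by
    intro l hl x hx
    rw [Finset.mem_image] at hl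
    obtain ⟨F, hF, rfl⟩ := hl
    rw [mem_fls] at hF
    rw [mem_pe] at hx
    have hsub : insert (x : α) F ⊆ M.closure (insert (x : α) F) :=
      M.subset_closure _ (Set.insert_subset x.2 hF.1.subset_ground)
    refine ⟨pe M (M.closure (insert (x : α) F)), ?_, ?_, ?_⟩
    · rw [Finset.mem_image]
      exact ⟨_, (mem_fls M).mpr ⟨M.isFlat_closure _, rk_ins hF.1 hF.2 x.2 hx⟩, rfl⟩
    · rw [pe_sub_iff M hF.1.subset_ground]
      exact (Set.subset_insert _ _).trans hsub
    · rw [mem_pe]; exact hsub (Set.mem_insert _ _)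
  uniq_plane := by
    intro l hl x hx h hh h' hh' hlh hxh hlh' hxh'
    rw [Finset.mem_image] at hl hh hh'
    obtain ⟨F, hF, rfl⟩ := hl
    obtain ⟨K, hK, rfl⟩ := hh
    obtain ⟨K', hK', rfl⟩ := hh'
    rw [mem_fls] at hF hK hK'
    rw [mem_pe] at hx hxh hxh'
    rw [pe_sub_iff M hF.1.subset_ground] at hlh hlh'
    rw [← plane_eq hF.1 hF.2 hK.1 hK.2 hx hxh hlh, ← plane_eq hF.1 hF.2 hK'.1 hK'.2 hx hxh' hlh']
  closed := by
    intro h hh l hl x y hxy hx hy hxh hyh
    rw [Finset.mem_image] at hl hh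
    obtain ⟨F, hF, rfl⟩ := hl
    obtain ⟨K, hK, rfl⟩ := hh
    rw [mem_fls] at hF hK
    rw [mem_pe] at hx hy hxh hyh
    have hxy' : (x : α) ≠ y := fun h => hxy (Subtype.ext h)
    rw [pe_sub_iff M hF.1.subset_ground, ← line_eq hs hF.1 hF.2 hxy' hx hy]
    apply clos_sub hK.1
    intro z hz
    rcases hz with rfl | hz
    · exact hxh
    · rw [Set.mem_singleton_iff] at hz; rw [hz]; exact hyh
  nondeg := by
    intro h hh
    rw [Finset.mem_image] at hh
    obtain ⟨K, hK, rfl⟩ := hh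
    rw [mem_fls] at hK
    obtain ⟨x, hx, y, hy, hxy⟩ := exists_pair (M := M) (F := K) (by rw [hK.2]; norm_num)
    obtain ⟨z, hz, hzl⟩ := exists_off hs hK.1 hK.2 hx hy hxy
    have hxE := hK.1.subset_ground hx
    have hyE := hK.1.subset_ground hy
    refine ⟨pe M (M.closure {x, y}), ?_, ?_, ⟨z, hK.1.subset_ground hz⟩, ?_, ?_⟩
    · rw [Finset.mem_image]
      exact ⟨_, (mem_fls M).mpr ⟨M.isFlat_closure _, rk_two hs hxE hyE hxy⟩, rfl⟩
    · rw [pe_sub_iff M (M.closure_subset_ground _)]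
      apply clos_sub hK.1
      intro w hw
      rcases hw with rfl | hw
      · exact hx
      · rw [Set.mem_singleton_iff] at hw; rw [hw]; exact hy
    · rw [mem_pe]; exact hz
    · rw [mem_pe]; exact hzl

lemma pe_inj [M.Finite] (k : ℕ∞) : Set.InjOn (pe M) (fls M k : Set (Set α)) := by
  intro F hF F' hF' h
  rw [Finset.mem_coe, mem_fls] at hF hF'
  apply Set.Subset.antisymm
  · rw [← pe_sub_iff M hF.1.subset_ground, h]
  · rw [← pe_sub_iff M hF'.1.subset_ground, h]

lemma card_fls [M.Finite] (k : ℕ∞) :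
    (fls M k).card = {F : Set α | M.IsFlat F ∧ M.eRk F = k}.ncard := by
  unfold fls
  rw [Set.ncard_eq_toFinset_card _ (flats_fin M k)]

lemma smGeo_L [M.Finite] (hs : Simp M) :
    (smGeo M hs).L.card = {F : Set α | M.IsFlat F ∧ M.eRk F = 2}.ncard := by
  classical
  rw [← card_fls]
  exact Finset.card_image_of_injOn (pe_inj M 2)

lemma smGeo_H [M.Finite] (hs : Simp M) :
    (smGeo M hs).H.card = {F : Set α | M.IsFlat F ∧ M.eRk F = 3}.ncard := by
  classical
  rw [← card_fls]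
  exact Finset.card_image_of_injOn (pe_inj M 3)

lemma card_ground [M.Finite] : Fintype.card M.E = M.E.ncard := by
  rw [← Nat.card_eq_fintype_card, Nat.card_coe_set_eq]

/-- transfer of Mason's inequality -/
theorem mason_of_geo (H : ∀ (n : ℕ) (G : Geo (Fin n)), 3 ≤ n →
      3 * (n : ℝ) * ((n : ℝ) - 1) * (G.H.card : ℝ) ≤ 2 * ((n : ℝ) - 2) * (G.L.card : ℝ) ^ 2 ∧
      (3 * (n : ℝ) * ((n : ℝ) - 1) * (G.H.card : ℝ) = 2 * ((n : ℝ) - 2) * (G.L.card : ℝ) ^ 2 →
        ∀ h ∈ G.H, h.card = 3))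
    [M.Finite] (hs : Simp M) (hr : 3 ≤ M.eRank) :
    3 * (M.E.ncard : ℝ) * ((M.E.ncard : ℝ) - 1) / (2 * ((M.E.ncard : ℝ) - 2)) *
        ({F : Set α | M.IsFlat F ∧ M.eRk F = 3}.ncard : ℝ) ≤
      ({F : Set α | M.IsFlat F ∧ M.eRk F = 2}.ncard : ℝ) ^ 2 ∧
    (({F : Set α | M.IsFlat F ∧ M.eRk F = 2}.ncard : ℝ) ^ 2 =
        3 * (M.E.ncard : ℝ) * ((M.E.ncard : ℝ) - 1) / (2 * ((M.E.ncard : ℝ) - 2)) *
        ({F : Set α | M.IsFlat F ∧ M.eRk F = 3}.ncard : ℝ) →
      ∀ F : Set α, M.IsFlat F → M.eRk F = 3 → F.ncard = 3) := by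
  have hn : 3 ≤ M.E.ncard := by
    have h1 : (3 : ℕ∞) ≤ M.E.encard := hr.trans (by
      rw [← M.eRk_ground]; exact M.eRk_le_encard _)
    rw [← M.ground_finite.cast_ncard_eq] at h1
    exact_mod_cast h1
  set n := M.E.ncard with hndef
  have hc : Fintype.card M.E = n := card_ground M
  let e : M.E ≃ Fin n := Fintype.equivFinOfCardEq hc
  obtain ⟨h1, h2⟩ := H n (trGeo e (smGeo M hs)) hn
  rw [trGeo_L, trGeo_H, smGeo_L, smGeo_H] at h1 h2
  set t : ℝ := ({F : Set α | M.IsFlat F ∧ M.eRk F = 2}.ncard : ℝ) with ht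
  set q : ℝ := ({F : Set α | M.IsFlat F ∧ M.eRk F = 3}.ncard : ℝ) with hq
  have hn' : (3 : ℝ) ≤ (n : ℝ) := by exact_mod_cast hn
  have hpos : 0 < 2 * ((n : ℝ) - 2) := by linarith
  have e1 : 3 * (n : ℝ) * ((n : ℝ) - 1) / (2 * ((n : ℝ) - 2)) * q =
      3 * (n : ℝ) * ((n : ℝ) - 1) * q / (2 * ((n : ℝ) - 2)) := by ring
  rw [e1]
  constructor
  · rw [div_le_iff₀ hpos]
    linarith
  · intro h
    have h3 : 3 * (n : ℝ) * ((n : ℝ) - 1) * q = 2 * ((n : ℝ) - 2) * t ^ 2 := by
      rw [eq_div_iff hpos.ne'] at h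
      linarith
    have h4 := trGeo_three e (smGeo M hs) (h2 h3)
    intro F hF hF3
    have h5 : pe M F ∈ (smGeo M hs).H := by
      classical
      change pe M F ∈ (fls M 3).image (pe M)
      exact Finset.mem_image_of_mem _ ((mem_fls M).mpr ⟨hF, hF3⟩)
    rw [← card_pe M hF.subset_ground]
    exact h4 _ h5

end

end Pool.Agent.Q25.PLP
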