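import Mathlib
import Pool.Agent.Q25.PLP.Stm
import Pool.Agent.Q25.PLP.SM

/-!
# Mason's inequality from the two main inequalities
-/

set_option autoImplicit false

open Finset Pool.Agent.Helper123.PLP

namespace Pool.Agent.Q25.PLP

theorem mason_fin (h1 : S_FIN) (h2 : S_M1) (n : ℕ) (G : Geo (Fin n)) (hn : 3 ≤ n) :
    3 * (n : ℝ) * ((n : ℝ) - 1) * (G.H.card : ℝ) ≤ 2 * ((n : ℝ) - 2) * (G.L.card : ℝ) ^ 2 ∧
      (3 * (n : ℝ) * ((n : ℝ) - 1) * (G.H.card : ℝ) = 2 * ((n : ℝ) - 2) * (G.L.card : ℝ) ^ 2 →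
        ∀ h ∈ G.H, h.card = 3) := by
  have a := h1 (Fin n) G
  obtain ⟨b, c⟩ := h2 (Fin n) G
  rw [Fintype.card_fin] at a b c
  set W1 : ℝ := ∑ l ∈ G.L, 1 / (l.card : ℝ) with hS
  set p : ℝ := (G.H.card : ℝ) with hp
  set t : ℝ := (G.L.card : ℝ) with ht
  have hn' : (3 : ℝ) ≤ (n : ℝ) := by exact_mod_cast hn
  have hpos : 0 < 2 * ((n : ℝ) - 2) := by linarith
  have a1 : 2 * ((n : ℝ) - 2) * (3 / 2 * (n : ℝ) * p + (n : ℝ) * W1) ≤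
      2 * ((n : ℝ) - 2) * t ^ 2 := mul_le_mul_of_nonneg_left a hpos.le
  have b1 : 2 * (n : ℝ) * (3 / 2 * p) ≤ 2 * (n : ℝ) * (((n : ℝ) - 2) * W1) :=
    mul_le_mul_of_nonneg_left b (by linarith)
  constructor
  · nlinarith
  · intro h
    apply c
    have b2 : 2 * (n : ℝ) * (((n : ℝ) - 2) * W1) ≤ 2 * (n : ℝ) * (3 / 2 * p) := by nlinarith
    have b3 : 2 * (n : ℝ) * (3 / 2 * p) = 2 * (n : ℝ) * (((n : ℝ) - 2) * W1) := le_antisymm b1 b2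
    exact mul_left_cancel₀ (by linarith : 2 * (n : ℝ) ≠ 0) b3

/-- Mason's inequality for a finite simple matroid -/
theorem mason_matroid (h1 : S_FIN) (h2 : S_M1) {α : Type*} (M : Matroid α) [M.Finite]
    (hs : Simp M) (hr : 3 ≤ M.eRank) :
    3 * (M.E.ncard : ℝ) * ((M.E.ncard : ℝ) - 1) / (2 * ((M.E.ncard : ℝ) - 2)) *
        ({F : Set α | M.IsFlat F ∧ M.eRk F = 3}.ncard : ℝ) ≤
      ({F : Set α | M.IsFlat F ∧ M.eRk F = 2}.ncard : ℝ) ^ 2 ∧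
    (({F : Set α | M.IsFlat F ∧ M.eRk F = 2}.ncard : ℝ) ^ 2 =
        3 * (M.E.ncard : ℝ) * ((M.E.ncard : ℝ) - 1) / (2 * ((M.E.ncard : ℝ) - 2)) *
        ({F : Set α | M.IsFlat F ∧ M.eRk F = 3}.ncard : ℝ) →
      ∀ F : Set α, M.IsFlat F → M.eRk F = 3 → F.ncard = 3) :=
  mason_of_geo M (fun n G hn => mason_fin h1 h2 n G hn) hs hr

end Pool.Agent.Q25.PLP
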