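import Mathlib
import Pool.Agent.Q25.PLP.GM
import Pool.Agent.Q25.PLP.Mas

/-!
# Whitney numbers: the two ends `k = 2` and `k = rank - 1`
-/

set_option autoImplicit false

open Finset Pool.Agent.Helper123.PLP Pool.Agent.Q25.PLP

namespace Pool.Agent.Q25.PLPG

universe u

set_option linter.unusedSectionVars false

section
variable {α : Type u} (M : Matroid α) [M.Finite]

/-- every flat has at most as much rank as it has points -/
lemma rk_le_pts {F : Set α} (hF : M.IsFlat F) : rkn M F ≤ (pts M F).card := by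
  classical
  obtain ⟨I, hI⟩ := M.exists_isBasis F hF.subset_ground
  have hIfin : I.Finite := hI.indep.finite
  have h1 : rkn M F = I.ncard := by
    rw [← rkn_eq_iff, ← hI.encard_eq_eRk, hIfin.cast_ncard_eq]
  have hnl : ∀ e ∈ I, rkn M (M.closure {e}) = 1 := by
    intro e he
    rw [rkn_closure, ← rkn_eq_iff]
    have : M.Indep {e} := hI.indep.subset (by simpa using he)
    rw [this.eRk_eq_encard]
    simp
  have h2 : (pts M F).card = ((pts M F).image (fun p : Pt M => (p : Set α))).card :=
    (Finset.card_image_of_injective _ Subtype.val_injective).symm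
  rw [h1, h2, Set.ncard_eq_toFinset_card _ hIfin]
  apply Finset.card_le_card_of_injOn (fun e => M.closure {e})
  · intro e he
    rw [Finset.mem_coe, Set.Finite.mem_toFinset] at he
    rw [Finset.mem_coe, Finset.mem_image]
    refine ⟨⟨M.closure {e}, M.isFlat_closure _, hnl e he⟩, ?_, rfl⟩
    rw [mem_pts]
    exact closure_sub M hF (by simpa using hI.subset he)
  · intro e he f hf hef
    rw [Finset.mem_coe, Set.Finite.mem_toFinset] at he hf
    change M.closure {e} = M.closure {f} at hef
    by_contra hne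
    have hfE : f ∈ M.E := hI.indep.subset_ground hf
    have h3 : f ∈ M.closure {e} := by
      rw [hef]; exact M.mem_closure_self f hfE
    have h4 : M.closure {e} ⊆ M.closure (I \ {f}) := by
      apply M.closure_subset_closure
      intro x hx
      rw [Set.mem_singleton_iff] at hx
      rw [hx]
      exact ⟨he, by simpa using hne⟩
    exact hI.indep.notMem_closure_sdiff_of_mem hf (h4 h3)

lemma rk_ground_top {r : ℕ} (hr : M.eRank = (r : ℕ∞)) : rkn M M.E = r := by
  rw [← rkn_eq_iff, M.eRk_ground, hr]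

/-- the only flat of full rank is the ground set -/
lemma top_flats {r : ℕ} (hr : M.eRank = (r : ℕ∞)) : flats M r = {M.E} := by
  ext F
  rw [mem_flats, Finset.mem_singleton]
  constructor
  · rintro ⟨hF, hr'⟩
    apply flat_eq M hF M.ground_isFlat hF.subset_ground
    rw [rk_ground_top M hr, hr']
  · rintro rfl
    exact ⟨M.ground_isFlat, rk_ground_top M hr⟩

lemma rk_ins_flat {G : Set α} (hG : M.IsFlat G) {x : α} (hx : x ∈ M.E) (hxG : x ∉ G) :
    rkn M (M.closure (insert x G)) = rkn M G + 1 := by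
  rw [rkn_closure]
  have h1 : rkn M (insert x G) ≤ rkn M G + 1 := by
    have := M.eRk_insert_le_add_one x G
    rw [← rkn_cast, ← rkn_cast] at this
    exact_mod_cast this
  have h2 : ¬ rkn M (insert x G) ≤ rkn M G := by
    intro h
    have hsub : insert x G ⊆ M.closure (insert x G) :=
      M.subset_closure _ (Set.insert_subset hx hG.subset_ground)
    have := flat_eq M hG (M.isFlat_closure _) ((Set.subset_insert x G).trans hsub)
      (by rw [rkn_closure]; exact h)
    apply hxG
    rw [this]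
    exact hsub (Set.mem_insert x G)
  omega

/-- every flat of rank at most `r - 2` is in two flats of the next rank -/
lemma two_above {r : ℕ} (hr : M.eRank = (r : ℕ∞)) {G : Set α} (hG : M.IsFlat G)
    (h : rkn M G + 2 ≤ r) : ∃ A B : Set α, M.IsFlat A ∧ M.IsFlat B ∧ rkn M A = rkn M G + 1 ∧
      rkn M B = rkn M G + 1 ∧ A ≠ B ∧ G ⊆ A ∧ G ⊆ B := by
  have hE := rk_ground_top M hr
  have h1 : ¬ M.E ⊆ G := by
    intro h2
    have := rkn_mono M h2
    omega
  obtain ⟨x, hx, hxG⟩ := Set.not_subset.mp h1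
  have hA := rk_ins_flat M hG hx hxG
  have h2 : ¬ M.E ⊆ M.closure (insert x G) := by
    intro h2
    have := rkn_mono M h2
    omega
  obtain ⟨y, hy, hyA⟩ := Set.not_subset.mp h2
  have hsubA : insert x G ⊆ M.closure (insert x G) :=
    M.subset_closure _ (Set.insert_subset hx hG.subset_ground)
  have hyG : y ∉ G := fun h3 => hyA (hsubA (Set.mem_insert_of_mem _ h3))
  have hB := rk_ins_flat M hG hy hyG
  have hsubB : insert y G ⊆ M.closure (insert y G) :=
    M.subset_closure _ (Set.insert_subset hy hG.subset_ground)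
  refine ⟨_, _, M.isFlat_closure _, M.isFlat_closure _, hA, hB, ?_,
    (Set.subset_insert _ _).trans hsubA, (Set.subset_insert _ _).trans hsubB⟩
  intro h3
  apply hyA
  rw [h3]
  exact hsubB (Set.mem_insert y G)

/-- counting pairs of flats: `2 W_j ≤ W_{j+1} (W_{j+1} - 1)` for `j ≤ r - 2` -/
lemma pairs_above {r : ℕ} (hr : M.eRank = (r : ℕ∞)) {j : ℕ} (hj : j + 2 ≤ r) :
    (flats M j).card ≤ ((flats M (j + 1)).card).choose 2 := by
  classical
  have h0 : ∀ G : Set α, ∃ T : Finset (Set α), G ∈ flats M j →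
      T ∈ (flats M (j + 1)).powersetCard 2 ∧ ∀ A ∈ T, G ⊆ A := by
    intro G
    by_cases hG : G ∈ flats M j
    · have hG' := (mem_flats M).mp hG
      obtain ⟨A, B, hA, hB, hA1, hB1, hne, h1, h2⟩ := two_above M hr hG'.1 (by omega)
      refine ⟨{A, B}, fun _ => ⟨?_, ?_⟩⟩
      · rw [Finset.mem_powersetCard]
        refine ⟨?_, Finset.card_pair hne⟩
        intro C hC
        rw [Finset.mem_insert, Finset.mem_singleton] at hC
        rcases hC with rfl | rfl
        · exact (mem_flats M).mpr ⟨hA, by omega⟩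
        · exact (mem_flats M).mpr ⟨hB, by omega⟩
      · intro C hC
        rw [Finset.mem_insert, Finset.mem_singleton] at hC
        rcases hC with rfl | rfl
        · exact h1
        · exact h2
    · exact ⟨∅, fun h => absurd h hG⟩
  choose T hT using h0
  rw [← Finset.card_powersetCard]
  apply Finset.card_le_card_of_injOn T
  · intro G hG
    exact (hT G hG).1
  · intro G hG G' hG' hTT
    obtain ⟨h1, h2⟩ := hT G hG
    obtain ⟨-, h2'⟩ := hT G' hG'
    rw [Finset.mem_powersetCard] at h1
    obtain ⟨A, B, hne, hAB⟩ := Finset.card_eq_two.mp h1.2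
    rw [Finset.mem_coe, mem_flats] at hG hG'
    have hA := (mem_flats M).mp (h1.1 (show A ∈ T G by rw [hAB]; simp))
    have hB := (mem_flats M).mp (h1.1 (show B ∈ T G by rw [hAB]; simp))
    have hAm : A ∈ T G := by rw [hAB]; simp
    have hBm : B ∈ T G := by rw [hAB]; simp
    have hI : M.IsFlat (A ∩ B) := by
      have e : M.closure (A ∩ B) = A ∩ B := by
        apply Set.Subset.antisymm
        · exact Set.subset_inter (closure_sub M hA.1 Set.inter_subset_left)
            (closure_sub M hB.1 Set.inter_subset_right)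
        · exact M.subset_closure _ (Set.inter_subset_left.trans hA.1.subset_ground)
      rw [← e]
      exact M.isFlat_closure _
    have hIr : rkn M (A ∩ B) ≤ j := by
      by_contra hcon
      have e1 : A ∩ B = A := flat_eq M hI hA.1 Set.inter_subset_left (by omega)
      have e2 : A ∩ B = B := flat_eq M hI hB.1 Set.inter_subset_right (by omega)
      exact hne (e1.symm.trans e2)
    have k1 : G = A ∩ B := flat_eq M hG.1 hI (Set.subset_inter (h2 A hAm) (h2 B hBm)) (by omega)
    have k2 : G' = A ∩ B := flat_eq M hG'.1 hI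
      (Set.subset_inter (h2' A (hTT ▸ hAm)) (h2' B (hTT ▸ hBm))) (by omega)
    rw [k1, k2]

lemma card_pts_univ : (pts M M.E).card = Fintype.card (Pt M) := by
  rw [← Finset.card_univ]
  congr 1
  ext p
  rw [mem_pts]
  simp only [Finset.mem_univ, iff_true]
  exact p.2.1.subset_ground

lemma rank_le_points {r : ℕ} (hr : M.eRank = (r : ℕ∞)) : r ≤ (flats M 1).card := by
  have h1 := rk_le_pts M M.ground_isFlat
  rw [rk_ground_top M hr, card_pts_univ, card_pt] at h1
  exact h1

/-- if there are as many points as the rank then there are at most as many hyperplanes -/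
lemma hyp_le {k : ℕ} (hr : M.eRank = ((k + 1 : ℕ) : ℕ∞)) (hn : (flats M 1).card = k + 1) :
    (flats M k).card ≤ k + 1 := by
  classical
  have h1 : (flats M k).card = ((flats M k).image (fun H => (pts M H)ᶜ)).card := by
    rw [Finset.card_image_of_injOn]
    intro H hH H' hH' h
    exact pts_inj M k hH hH' (compl_injective h)
  have h2 : (flats M k).image (fun H => (pts M H)ᶜ) ⊆
      ((univ : Finset (Pt M)).powersetCard 1) := by
    intro S hS
    obtain ⟨H, hH, rfl⟩ := Finset.mem_image.mp hS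
    rw [mem_flats] at hH
    rw [Finset.mem_powersetCard]
    refine ⟨Finset.subset_univ _, ?_⟩
    have h3 := rk_le_pts M hH.1
    have h4 : (pts M H).card ≤ k := by
      by_contra hcon
      have h5 : (pts M H).card ≤ Fintype.card (Pt M) := Finset.card_le_univ _
      rw [card_pt, hn] at h5
      have h6 : pts M H = univ := by
        apply Finset.eq_univ_of_card
        rw [card_pt, hn]
        omega
      have h7 : pts M M.E ⊆ pts M H := by rw [h6]; exact Finset.subset_univ _
      rw [pts_sub_iff M M.ground_isFlat hH.1] at h7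
      have h8 := rkn_mono M h7
      rw [rk_ground_top M hr] at h8
      omega
    rw [Finset.card_compl, card_pt, hn]
    omega
  rw [h1]
  refine (Finset.card_le_card h2).trans ?_
  rw [Finset.card_powersetCard, Finset.card_univ, card_pt, hn]
  simp

/-- the inequality for the hyperplanes, except for the rank three case with four points -/
lemma hyp_ineq {k : ℕ} (hk : 2 ≤ k) (hr : M.eRank = ((k + 1 : ℕ) : ℕ∞))
    (hex : ¬ (k = 2 ∧ (flats M 1).card = 4)) :
    ((k : ℝ) + 1) * (((flats M 1).card : ℝ) - k + 1) * ((flats M (k - 1)).card : ℝ) *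
        ((flats M (k + 1)).card : ℝ) ≤
      (k : ℝ) * (((flats M 1).card : ℝ) - k) * ((flats M k).card : ℝ) ^ 2 := by
  obtain ⟨j, rfl⟩ : ∃ j, k = j + 1 := ⟨k - 1, by omega⟩
  have h1 := pairs_above M hr (j := j) (by omega)
  have h2 : (flats M (j + 1 + 1)).card = 1 := by
    rw [top_flats M hr]; simp
  have hn := rank_le_points M hr
  rw [h2, Nat.add_sub_cancel]
  set n := (flats M 1).card with hndef
  set h := (flats M (j + 1)).card with hhdef
  set c := (flats M j).card with hcdef
  have h3 : (c : ℝ) ≤ (h : ℝ) * (h - 1) / 2 := by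
    have : (c : ℝ) ≤ ((h.choose 2 : ℕ) : ℝ) := by exact_mod_cast h1
    rwa [Nat.cast_choose_two] at this
  have hn' : ((j : ℝ) + 1 + 1) ≤ (n : ℝ) := by exact_mod_cast hn
  have hj : (1 : ℝ) ≤ (j : ℝ) := by exact_mod_cast (by omega : 1 ≤ j)
  have hh : (0 : ℝ) ≤ (h : ℝ) := by positivity
  have hc : (0 : ℝ) ≤ (c : ℝ) := by positivity
  push_cast
  -- the weight
  have hm : 0 ≤ ((j : ℝ) + 1 + 1) * ((n : ℝ) - (j + 1) + 1) := by
    apply mul_nonneg <;> linarith
  have h4 : ((j : ℝ) + 1 + 1) * ((n : ℝ) - (j + 1) + 1) * (c : ℝ) ≤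
      ((j : ℝ) + 1 + 1) * ((n : ℝ) - (j + 1) + 1) * ((h : ℝ) * (h - 1) / 2) :=
    mul_le_mul_of_nonneg_left h3 hm
  rw [mul_one]
  refine h4.trans ?_
  rcases Nat.lt_or_ge n (j + 3) with hlt | hge
  · -- n = k + 1
    have hnk : n = j + 1 + 1 := by omega
    have h5 := hyp_le M hr (by rw [← hndef, hnk])
    have h6 : (h : ℝ) ≤ (j : ℝ) + 1 + 1 := by exact_mod_cast h5
    have h7 : (n : ℝ) = (j : ℝ) + 1 + 1 := by rw [hnk]; push_cast; ring
    rw [h7]
    nlinarith
  · rcases Nat.lt_or_ge n (j + 4) with hlt | hge'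
    · -- n = k + 2, k ≥ 3
      have hnk : n = j + 3 := by omega
      have hj2 : 2 ≤ j := by
        by_contra hcon
        apply hex
        have : j = 1 := by omega
        subst this
        exact ⟨rfl, hnk⟩
      have hj2' : (2 : ℝ) ≤ (j : ℝ) := by exact_mod_cast hj2
      have h7 : (n : ℝ) = (j : ℝ) + 3 := by rw [hnk]; push_cast; ring
      rw [h7]
      have h8 : 0 ≤ (h : ℝ) * ((j : ℝ) * h) := by positivity
      nlinarith
    · have hn3 : (j : ℝ) + 4 ≤ (n : ℝ) := by exact_mod_cast hge'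
      obtain ⟨m, hm'⟩ : ∃ m : ℝ, (n : ℝ) = m + (j + 1) := ⟨(n : ℝ) - (j + 1), by ring⟩
      have hm3 : 3 ≤ m := by linarith
      rw [hm']
      have h9 : ((j : ℝ) + 1 + 1) * (m + 1) ≤ 2 * ((j : ℝ) + 1) * m := by nlinarith
      have h10 : 0 ≤ (h : ℝ) * h / 2 := by positivity
      have h11 : 0 ≤ (((j : ℝ) + 1 + 1) * (m + 1)) * ((h : ℝ) / 2) := by positivity
      have h12 := mul_le_mul_of_nonneg_right h9 h10
      have e1 : ((j : ℝ) + 1 + 1) * (m + (j + 1) - (j + 1) + 1) * ((h : ℝ) * (h - 1) / 2) =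
          ((j : ℝ) + 1 + 1) * (m + 1) * ((h : ℝ) * h / 2) -
            (((j : ℝ) + 1 + 1) * (m + 1)) * ((h : ℝ) / 2) := by ring
      have e2 : ((j : ℝ) + 1) * (m + (j + 1) - (j + 1)) * (h : ℝ) ^ 2 =
          2 * ((j : ℝ) + 1) * m * ((h : ℝ) * h / 2) := by ring
      rw [e1, e2]
      linarith

/-- three points are needed for rank three -/
lemma mason_general (h1 : S_FIN) (h2 : S_M1) (hr : 3 ≤ M.eRank) :
    3 * ((flats M 1).card : ℝ) * (((flats M 1).card : ℝ) - 1) * ((flats M 3).card : ℝ) ≤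
      2 * (((flats M 1).card : ℝ) - 2) * ((flats M 2).card : ℝ) ^ 2 := by
  have hfin : M.eRank ≠ ⊤ := by
    rw [← M.eRk_ground, Matroid.eRk_ne_top_iff]
    exact M.isRkFinite_set M.E
  obtain ⟨r, hr'⟩ := ENat.ne_top_iff_exists.mp hfin
  have hr3 : 3 ≤ r := by
    rw [← hr'] at hr
    exact_mod_cast hr
  have hn : 3 ≤ (flats M 1).card := hr3.trans (rank_le_points M hr'.symm)
  have hc : Fintype.card (Pt M) = (flats M 1).card := card_pt M
  let e : Pt M ≃ Fin (flats M 1).card := Fintype.equivFinOfCardEq hc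
  have h := (mason_fin h1 h2 _ (trGeo e (toGeo M)) hn).1
  rw [trGeo_L, trGeo_H, card_L, card_H] at h
  exact h

/-- the inequality of Mason for `k = 2` and for `k = rank - 1` -/
theorem two_ends (h1 : S_FIN) (h2 : S_M1) (k : ℕ) (hk : 2 ≤ k)
    (hr : ((k + 1 : ℕ) : ℕ∞) ≤ M.eRank) (hk2 : k = 2 ∨ M.eRank = ((k + 1 : ℕ) : ℕ∞)) :
    ((k : ℝ) + 1) * (({F : Set α | M.IsFlat F ∧ M.eRk F = (1 : ℕ∞)}.ncard : ℝ) - k + 1) *
        ({F : Set α | M.IsFlat F ∧ M.eRk F = ((k - 1 : ℕ) : ℕ∞)}.ncard : ℝ) *
        ({F : Set α | M.IsFlat F ∧ M.eRk F = ((k + 1 : ℕ) : ℕ∞)}.ncard : ℝ) ≤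
      (k : ℝ) * (({F : Set α | M.IsFlat F ∧ M.eRk F = (1 : ℕ∞)}.ncard : ℝ) - k) *
        ({F : Set α | M.IsFlat F ∧ M.eRk F = ((k : ℕ) : ℕ∞)}.ncard : ℝ) ^ 2 := by
  have e1 := card_flats M 1
  rw [Nat.cast_one] at e1
  rw [card_flats M (k - 1), card_flats M (k + 1), card_flats M k, e1]
  by_cases hk' : k = 2
  · subst hk'
    have h := mason_general M h1 h2 (by exact_mod_cast hr)
    simp only [Nat.add_one_sub_one, Nat.reduceAdd] at h ⊢
    push_cast
    nlinarith
  · rcases hk2 with hk2 | hk2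
    · exact absurd hk2 hk'
    · exact hyp_ineq M hk hk2 (fun h => hk' h.1)

end

end Pool.Agent.Q25.PLPG
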