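import Mathlib

/-!
# Lines and planes determined by a finite set of points in space: definitions
-/

set_option autoImplicit false

namespace Pool.Agent.Q25.PLP

/-- three-dimensional space -/
abbrev E3 := EuclideanSpace ℝ (Fin 3)

/-- the lines determined by `S` -/
def linesOf (S : Finset E3) : Set (AffineSubspace ℝ E3) :=
  {L | ∃ x ∈ S, ∃ y ∈ S, x ≠ y ∧ L = affineSpan ℝ ({x, y} : Set E3)}

/-- the planes determined by `S` -/
def planesOf (S : Finset E3) : Set (AffineSubspace ℝ E3) :=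
  {P | ∃ x ∈ S, ∃ y ∈ S, ∃ z ∈ S, ¬ Collinear ℝ ({x, y, z} : Set E3) ∧
    P = affineSpan ℝ ({x, y, z} : Set E3)}

/-- two lines which are not in one plane -/
def SkewLines (A B : AffineSubspace ℝ E3) : Prop :=
  (A : Set E3).Nonempty ∧ Module.finrank ℝ A.direction = 1 ∧
  (B : Set E3).Nonempty ∧ Module.finrank ℝ B.direction = 1 ∧
  ¬ Coplanar ℝ ((A : Set E3) ∪ (B : Set E3))

/-- not in one plane and not in the union of two skew lines -/
def Admissible (S : Finset E3) : Prop :=
  ¬ Coplanar ℝ (S : Set E3) ∧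
    ¬ ∃ A B : AffineSubspace ℝ E3, SkewLines A B ∧ (S : Set E3) ⊆ (A : Set E3) ∪ (B : Set E3)

/-- the quotient `l ^ 2 / (n p)` -/
noncomputable def quo (S : Finset E3) : ℝ :=
  ((linesOf S).ncard : ℝ) ^ 2 / ((S.card : ℝ) * ((planesOf S).ncard : ℝ))

end Pool.Agent.Q25.PLP
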