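import Mathlib
import Pool.Agent.Q25.PLP.KDef

/-!
# Points on the moment curve
-/

set_option autoImplicit false

open Finset

namespace Pool.Agent.Q25.PLP

/-- the point of the moment curve -/
noncomputable def mc (t : ℝ) : E3 := WithLp.toLp 2 ![t, t ^ 2, t ^ 3]

lemma mc0 (t : ℝ) : mc t 0 = t := by simp [mc]
lemma mc1 (t : ℝ) : mc t 1 = t ^ 2 := by simp [mc]
lemma mc2 (t : ℝ) : mc t 2 = t ^ 3 := by simp [mc]

lemma mc_inj : Function.Injective mc := by
  intro s t h
  have := congrArg (fun x : E3 => x 0) h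
  simpa [mc0] using this

/-- the plane through the points with the parameters `a, b, c` -/
def mpl (a b c : ℝ) : AffineSubspace ℝ E3 where
  carrier := {x | x 2 - (a + b + c) * x 1 + (a * b + a * c + b * c) * x 0 = a * b * c}
  smul_vsub_vadd_mem' := by
    intro r p q s hp hq hs
    simp only [Set.mem_ofPred_eq] at hp hq hs ⊢
    simp only [vsub_eq_sub, vadd_eq_add, PiLp.add_apply, PiLp.smul_apply, PiLp.sub_apply,
      smul_eq_mul]
    linear_combination r * hp - r * hq + hs

lemma mem_mpl (a b c : ℝ) (x : E3) : x ∈ mpl a b c ↔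
    x 2 - (a + b + c) * x 1 + (a * b + a * c + b * c) * x 0 = a * b * c := Iff.rfl

lemma mc_mem_mpl (a b c t : ℝ) : mc t ∈ mpl a b c ↔ t = a ∨ t = b ∨ t = c := by
  rw [mem_mpl, mc0, mc1, mc2]
  constructor
  · intro h
    have h1 : (t - a) * ((t - b) * (t - c)) = 0 := by linear_combination h
    rcases mul_eq_zero.mp h1 with h2 | h2
    · exact Or.inl (by linarith)
    · rcases mul_eq_zero.mp h2 with h3 | h3
      · exact Or.inr (Or.inl (by linarith))
      · exact Or.inr (Or.inr (by linarith))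
  · rintro (rfl | rfl | rfl) <;> ring

lemma span_le_mpl (a b c : ℝ) : affineSpan ℝ ({mc a, mc b, mc c} : Set E3) ≤ mpl a b c := by
  rw [affineSpan_le]
  intro x hx
  rcases hx with rfl | rfl | hx
  · exact (mc_mem_mpl a b c a).mpr (Or.inl rfl)
  · exact (mc_mem_mpl a b c b).mpr (Or.inr (Or.inl rfl))
  · rw [Set.mem_singleton_iff] at hx
    rw [hx]
    exact (mc_mem_mpl a b c c).mpr (Or.inr (Or.inr rfl))

lemma mc_span (a b c t : ℝ) (h : mc t ∈ affineSpan ℝ ({mc a, mc b, mc c} : Set E3)) :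
    t = a ∨ t = b ∨ t = c := (mc_mem_mpl a b c t).mp (span_le_mpl a b c h)

lemma mc_noncol (a b c : ℝ) (hab : a ≠ b) (hac : a ≠ c) (hbc : b ≠ c) :
    ¬ Collinear ℝ ({mc a, mc b, mc c} : Set E3) := by
  intro h
  obtain ⟨d, hda, hdb, hdc⟩ : ∃ d : ℝ, c ≠ a ∧ c ≠ b ∧ c ≠ d :=
    ⟨c + 1, hac.symm, hbc.symm, by linarith⟩
  have h1 : mc c ∈ line[ℝ, mc a, mc b] := h.mem_affineSpan_of_mem_of_ne (by simp) (by simp)
    (by simp) (fun e => hab (mc_inj e))
  have h2 : line[ℝ, mc a, mc b] ≤ affineSpan ℝ ({mc a, mc b, mc d} : Set E3) := by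
    apply affineSpan_mono
    intro x hx
    rcases hx with rfl | hx
    · simp
    · rw [Set.mem_singleton_iff] at hx; rw [hx]; simp
  rcases mc_span a b d c (h2 h1) with h3 | h3 | h3
  · exact hda h3
  · exact hdb h3
  · exact hdc h3

/-- `n` points of the moment curve -/
noncomputable def mS (n : ℕ) : Finset E3 := (Finset.range n).image (fun i : ℕ => mc (i : ℝ))

lemma mem_mS {n : ℕ} {x : E3} : x ∈ mS n ↔ ∃ i < n, mc (i : ℝ) = x := by
  simp [mS]

lemma mS_card (n : ℕ) : (mS n).card = n := by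
  unfold mS
  rw [Finset.card_image_of_injective, Finset.card_range]
  intro i j h
  exact_mod_cast mc_inj h

lemma mc_nat_inj {i j : ℕ} (h : mc (i : ℝ) = mc (j : ℝ)) : i = j := by
  exact_mod_cast mc_inj h

/-- the number of lines is at most the number of pairs -/
lemma lines_le (S : Finset E3) : (linesOf S).ncard ≤ S.card.choose 2 := by
  classical
  have h1 : linesOf S ⊆ ((S.powersetCard 2).image
      (fun T : Finset E3 => affineSpan ℝ (T : Set E3)) : Finset (AffineSubspace ℝ E3)) := by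
    rintro L ⟨x, hx, y, hy, hxy, rfl⟩
    rw [Finset.mem_coe, Finset.mem_image]
    refine ⟨{x, y}, ?_, by simp⟩
    rw [Finset.mem_powersetCard]
    refine ⟨?_, Finset.card_pair hxy⟩
    intro z hz
    rcases Finset.mem_insert.mp hz with rfl | hz
    · exact hx
    · rw [Finset.mem_singleton] at hz; rw [hz]; exact hy
  have h2 := Set.ncard_le_ncard h1 (Finset.finite_toSet _)
  rw [Set.ncard_coe_finset] at h2
  refine h2.trans (Finset.card_image_le.trans ?_)
  rw [Finset.card_powersetCard]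

lemma planes_finite (S : Finset E3) : (planesOf S).Finite := by
  classical
  have h1 : planesOf S ⊆ (((S ×ˢ S) ×ˢ S).image
      (fun T => affineSpan ℝ ({T.1.1, T.1.2, T.2} : Set E3)) : Finset (AffineSubspace ℝ E3)) := by
    rintro L ⟨x, hx, y, hy, z, hz, -, rfl⟩
    rw [Finset.mem_coe, Finset.mem_image]
    refine ⟨((x, y), z), ?_, rfl⟩
    simp [hx, hy, hz]
  exact (Finset.finite_toSet _).subset h1

/-- points of the moment curve determine as many planes as possible -/
lemma planes_ge (n : ℕ) : n.choose 3 ≤ (planesOf (mS n)).ncard := by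
  classical
  let f : Finset ℕ → AffineSubspace ℝ E3 := fun T =>
    affineSpan ℝ ((fun i : ℕ => mc (i : ℝ)) '' (T : Set ℕ))
  have h1 : (((Finset.range n).powersetCard 3).image f : Finset (AffineSubspace ℝ E3)).card =
      n.choose 3 := by
    rw [Finset.card_image_of_injOn, Finset.card_powersetCard, Finset.card_range]
    intro T hT T' hT' hff
    rw [Finset.mem_coe, Finset.mem_powersetCard] at hT hT'
    have key : ∀ A B : Finset ℕ, A.card = 3 → B.card = 3 → f A = f B → A ⊆ B := by
      intro A B _ hB hAB i hi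
      obtain ⟨a, b, c, hab, hac, hbc, rfl⟩ := Finset.card_eq_three.mp hB
      have h2 : mc (i : ℝ) ∈ f A := subset_affineSpan ℝ _ ⟨i, hi, rfl⟩
      rw [hAB] at h2
      have h3 : f {a, b, c} = affineSpan ℝ ({mc (a : ℝ), mc (b : ℝ), mc (c : ℝ)} : Set E3) := by
        change affineSpan ℝ ((fun i : ℕ => mc (i : ℝ)) '' (({a, b, c} : Finset ℕ) : Set ℕ)) = _
        congr 1
        simp [Set.image_insert_eq]
      rw [h3] at h2
      rcases mc_span _ _ _ _ h2 with h4 | h4 | h4
      · simp [show i = a by exact_mod_cast h4]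
      · simp [show i = b by exact_mod_cast h4]
      · simp [show i = c by exact_mod_cast h4]
    exact Finset.Subset.antisymm (key _ _ hT.2 hT'.2 hff) (key _ _ hT'.2 hT.2 hff.symm)
  rw [← h1, ← Set.ncard_coe_finset]
  apply Set.ncard_le_ncard _ (planes_finite _)
  intro P hP
  rw [Finset.mem_coe, Finset.mem_image] at hP
  obtain ⟨T, hT, rfl⟩ := hP
  rw [Finset.mem_powersetCard] at hT
  obtain ⟨a, b, c, hab, hac, hbc, rfl⟩ := Finset.card_eq_three.mp hT.2
  have ha : a < n := Finset.mem_range.mp (hT.1 (by simp))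
  have hb : b < n := Finset.mem_range.mp (hT.1 (by simp))
  have hc : c < n := Finset.mem_range.mp (hT.1 (by simp))
  refine ⟨mc (a : ℝ), mem_mS.mpr ⟨a, ha, rfl⟩, mc (b : ℝ), mem_mS.mpr ⟨b, hb, rfl⟩,
    mc (c : ℝ), mem_mS.mpr ⟨c, hc, rfl⟩, ?_, ?_⟩
  · exact mc_noncol _ _ _ (by exact_mod_cast hab) (by exact_mod_cast hac) (by exact_mod_cast hbc)
  · change affineSpan ℝ ((fun i : ℕ => mc (i : ℝ)) '' (({a, b, c} : Finset ℕ) : Set ℕ)) = _
    congr 1
    simp [Set.image_insert_eq]

end Pool.Agent.Q25.PLP
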