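import Mathlib
import Pool.Agent.Q25.PLP.MC
import Pool.Agent.Q25.PLP.Euc

/-!
# The best constant in the points-lines-planes inequality in space
-/

set_option autoImplicit false

open Finset

namespace Pool.Agent.Q25.PLP

lemma exists_noncol {S : Finset E3} (h : ¬ Coplanar ℝ (S : Set E3)) :
    ∃ x ∈ S, ∃ y ∈ S, ∃ z ∈ S, ¬ Collinear ℝ ({x, y, z} : Set E3) := by
  by_contra hcon
  push Not at hcon
  apply h
  apply Collinear.coplanar
  by_cases h2 : ∃ x ∈ S, ∃ y ∈ S, x ≠ y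
  · obtain ⟨x, hx, y, hy, hxy⟩ := h2
    have h3 : (S : Set E3) ⊆ (line[ℝ, x, y] : Set E3) := by
      intro z hz
      exact (hcon x hx y hy z hz).mem_affineSpan_of_mem_of_ne (by simp) (by simp) (by simp) hxy
    have h4 : Collinear ℝ (line[ℝ, x, y] : Set E3) := by
      have h4' := collinear_pair ℝ x y
      rw [collinear_iff_finrank_le_one] at h4' ⊢
      rwa [← direction_affineSpan, AffineSubspace.affineSpan_coe, direction_affineSpan]
    exact h4.subset h3
  · push Not at h2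
    rcases Set.Subsingleton.eq_empty_or_singleton
      (show (S : Set E3).Subsingleton from fun x hx y hy => h2 x hx y hy) with h5 | ⟨a, h5⟩
    · rw [h5]; exact collinear_empty ℝ E3
    · rw [h5]; exact collinear_singleton ℝ a

lemma planes_pos {S : Finset E3} (h : ¬ Coplanar ℝ (S : Set E3)) : 0 < (planesOf S).ncard := by
  obtain ⟨x, hx, y, hy, z, hz, hn⟩ := exists_noncol h
  rw [Set.ncard_pos (planes_finite S)]
  exact ⟨_, x, hx, y, hy, z, hz, hn, rfl⟩

lemma card_two {S : Finset E3} (h : ¬ Coplanar ℝ (S : Set E3)) : 2 ≤ S.card := by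
  by_contra hcon
  apply h
  apply Collinear.coplanar
  have : S.card ≤ 1 := by omega
  rcases Set.Subsingleton.eq_empty_or_singleton
    (show (S : Set E3).Subsingleton from fun x hx y hy =>
      Finset.card_le_one.mp this x hx y hy) with h5 | ⟨a, h5⟩
  · rw [h5]; exact collinear_empty ℝ E3
  · rw [h5]; exact collinear_singleton ℝ a

theorem quo_gt (h1 : S_FIN) (h2 : S_R3) {S : Finset E3} (h : ¬ Coplanar ℝ (S : Set E3)) :
    3 / 2 < quo S := by
  have a := euc_strict h1 h2 S (card_two h)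
  have b : (0 : ℝ) < ((planesOf S).ncard : ℝ) := by exact_mod_cast planes_pos h
  have c : (0 : ℝ) < (S.card : ℝ) := by
    have := card_two h
    exact_mod_cast (by omega : 0 < S.card)
  unfold quo
  rw [lt_div_iff₀ (mul_pos c b)]
  have e : 3 / 2 * ((S.card : ℝ) * ((planesOf S).ncard : ℝ)) =
      3 / 2 * (S.card : ℝ) * ((planesOf S).ncard : ℝ) := by ring
  rw [e]
  exact a

lemma mS_not_coplanar {n : ℕ} (hn : 5 ≤ n) : ¬ Coplanar ℝ (mS n : Set E3) := by
  intro h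
  have m0 : mc ((0 : ℕ) : ℝ) ∈ (mS n : Set E3) := mem_mS.mpr ⟨0, by omega, rfl⟩
  have m1 : mc ((1 : ℕ) : ℝ) ∈ (mS n : Set E3) := mem_mS.mpr ⟨1, by omega, rfl⟩
  have m2 : mc ((2 : ℕ) : ℝ) ∈ (mS n : Set E3) := mem_mS.mpr ⟨2, by omega, rfl⟩
  have m3 : mc ((3 : ℕ) : ℝ) ∈ (mS n : Set E3) := mem_mS.mpr ⟨3, by omega, rfl⟩
  set T : Set E3 := {mc ((0 : ℕ) : ℝ), mc ((1 : ℕ) : ℝ), mc ((2 : ℕ) : ℝ)} with hT
  have hTS : T ⊆ (mS n : Set E3) := by
    intro x hx
    rcases hx with rfl | rfl | hx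
    · exact m0
    · exact m1
    · rw [Set.mem_singleton_iff] at hx; rw [hx]; exact m2
  have hnc : ¬ Collinear ℝ T := mc_noncol _ _ _ (by norm_num) (by norm_num) (by norm_num)
  rw [collinear_iff_finrank_le_one] at hnc
  have h2 := h.finrank_le_two
  have hle : vectorSpan ℝ T ≤ vectorSpan ℝ (mS n : Set E3) := vectorSpan_mono ℝ hTS
  have heq : vectorSpan ℝ T = vectorSpan ℝ (mS n : Set E3) :=
    Submodule.eq_of_le_of_finrank_le hle (by omega)
  have h3 : mc ((3 : ℕ) : ℝ) -ᵥ mc ((0 : ℕ) : ℝ) ∈ vectorSpan ℝ T := by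
    rw [heq]
    exact vsub_mem_vectorSpan ℝ m3 m0
  have h4 : mc ((3 : ℕ) : ℝ) ∈ affineSpan ℝ T := by
    have := vadd_mem_affineSpan_of_mem_affineSpan_of_mem_vectorSpan
      (mem_affineSpan ℝ (show mc ((0 : ℕ) : ℝ) ∈ T by simp [hT])) h3
    simpa using this
  rcases mc_span _ _ _ _ h4 with h5 | h5 | h5 <;> norm_num at h5

lemma collinear_of_line {A : AffineSubspace ℝ E3} (hA : Module.finrank ℝ A.direction = 1)
    {T : Set E3} (hT : T ⊆ (A : Set E3)) : Collinear ℝ T := by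
  rw [collinear_iff_finrank_le_one]
  have h1 : vectorSpan ℝ T ≤ A.direction := by
    have := vectorSpan_mono ℝ hT
    exact this
  have := Submodule.finrank_mono h1
  omega

lemma few_on_line {A : AffineSubspace ℝ E3} (hA : Module.finrank ℝ A.direction = 1) (n : ℕ)
    (I : Finset ℕ) (hI : ∀ i ∈ I, mc (i : ℝ) ∈ A) : I.card ≤ 2 := by
  by_contra hcon
  obtain ⟨a, ha, b, hb, c, hc, hab, hac, hbc⟩ := Finset.two_lt_card.mp (by omega : 2 < I.card)
  apply mc_noncol (a : ℝ) (b : ℝ) (c : ℝ) (by exact_mod_cast hab) (by exact_mod_cast hac)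
    (by exact_mod_cast hbc)
  apply collinear_of_line hA
  intro x hx
  rcases hx with rfl | rfl | hx
  · exact hI a ha
  · exact hI b hb
  · rw [Set.mem_singleton_iff] at hx; rw [hx]; exact hI c hc

lemma mS_admissible {n : ℕ} (hn : 5 ≤ n) : Admissible (mS n) := by
  classical
  refine ⟨mS_not_coplanar hn, ?_⟩
  rintro ⟨A, B, ⟨-, hA, -, hB, -⟩, hsub⟩
  have h1 := few_on_line hA n ((Finset.range n).filter (fun i : ℕ => mc (i : ℝ) ∈ A))
    (by intro i hi; exact (Finset.mem_filter.mp hi).2)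
  have h2 := few_on_line hB n ((Finset.range n).filter (fun i : ℕ => mc (i : ℝ) ∈ B))
    (by intro i hi; exact (Finset.mem_filter.mp hi).2)
  have h3 : Finset.range n ⊆ (Finset.range n).filter (fun i : ℕ => mc (i : ℝ) ∈ A) ∪
      (Finset.range n).filter (fun i : ℕ => mc (i : ℝ) ∈ B) := by
    intro i hi
    rw [Finset.mem_union, Finset.mem_filter, Finset.mem_filter]
    rcases hsub (show mc (i : ℝ) ∈ (mS n : Set E3) from
      mem_mS.mpr ⟨i, Finset.mem_range.mp hi, rfl⟩) with h | h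
    · exact Or.inl ⟨hi, h⟩
    · exact Or.inr ⟨hi, h⟩
  have h4 := Finset.card_le_card h3
  have h5 := Finset.card_union_le ((Finset.range n).filter (fun i : ℕ => mc (i : ℝ) ∈ A))
    ((Finset.range n).filter (fun i : ℕ => mc (i : ℝ) ∈ B))
  rw [Finset.card_range] at h4
  omega

lemma choose3 (n : ℕ) : ((n.choose 3 : ℕ) : ℝ) = (n : ℝ) * (n - 1) * (n - 2) / 6 := by
  induction n with
  | zero => simp
  | succ m ih =>
    rw [Nat.choose_succ_succ' m 2, Nat.cast_add, ih, Nat.cast_choose_two]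
    push_cast
    ring

lemma quo_mS {n : ℕ} (hn : 5 ≤ n) : quo (mS n) ≤ 3 / 2 + 3 / (2 * ((n : ℝ) - 2)) := by
  have hn' : (5 : ℝ) ≤ (n : ℝ) := by exact_mod_cast hn
  have h1 : ((linesOf (mS n)).ncard : ℝ) ≤ (n : ℝ) * (n - 1) / 2 := by
    have := lines_le (mS n)
    rw [mS_card] at this
    have h : ((linesOf (mS n)).ncard : ℝ) ≤ ((n.choose 2 : ℕ) : ℝ) := by exact_mod_cast this
    rwa [Nat.cast_choose_two] at h
  have h2 : (n : ℝ) * (n - 1) * (n - 2) / 6 ≤ ((planesOf (mS n)).ncard : ℝ) := by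
    have : ((n.choose 3 : ℕ) : ℝ) ≤ ((planesOf (mS n)).ncard : ℝ) := by
      exact_mod_cast planes_ge n
    rwa [choose3] at this
  have h3 : 0 < (n : ℝ) * (n - 1) * (n - 2) / 6 := by
    have a1 : 0 < (n : ℝ) - 1 := by linarith
    have a2 : 0 < (n : ℝ) - 2 := by linarith
    positivity
  unfold quo
  rw [mS_card]
  have h4 : 0 < (n : ℝ) * ((planesOf (mS n)).ncard : ℝ) := mul_pos (by linarith) (by linarith)
  rw [div_le_iff₀ h4]
  have h5 : ((linesOf (mS n)).ncard : ℝ) ^ 2 ≤ ((n : ℝ) * (n - 1) / 2) ^ 2 :=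
    pow_le_pow_left₀ (by positivity) h1 2
  have h6 : (3 / 2 + 3 / (2 * ((n : ℝ) - 2))) * ((n : ℝ) * ((n : ℝ) * (n - 1) * (n - 2) / 6)) =
      ((n : ℝ) * (n - 1) / 2) ^ 2 := by
    have a2 : (n : ℝ) - 2 ≠ 0 := by linarith
    field_simp
    ring
  have h7 : 0 ≤ 3 / 2 + 3 / (2 * ((n : ℝ) - 2)) := by
    have a2 : 0 < (n : ℝ) - 2 := by linarith
    positivity
  calc ((linesOf (mS n)).ncard : ℝ) ^ 2 ≤ ((n : ℝ) * (n - 1) / 2) ^ 2 := h5
    _ = (3 / 2 + 3 / (2 * ((n : ℝ) - 2))) * ((n : ℝ) * ((n : ℝ) * (n - 1) * (n - 2) / 6)) :=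
        h6.symm
    _ ≤ (3 / 2 + 3 / (2 * ((n : ℝ) - 2))) * ((n : ℝ) * ((planesOf (mS n)).ncard : ℝ)) := by
        apply mul_le_mul_of_nonneg_left _ h7
        exact mul_le_mul_of_nonneg_left h2 (by linarith)

theorem kstar (h1 : S_FIN) (h2 : S_R3) :
    sInf {r : ℝ | ∃ S : Finset E3, Admissible S ∧ r = quo S} = 3 / 2 ∧
      ∀ S : Finset E3, Admissible S → 3 / 2 < quo S := by
  have hlt : ∀ S : Finset E3, Admissible S → 3 / 2 < quo S := fun S hS => quo_gt h1 h2 hS.1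
  refine ⟨?_, hlt⟩
  apply le_antisymm
  · apply le_of_forall_pos_le_add
    intro ε hε
    obtain ⟨m, hm⟩ := exists_nat_gt (3 / (2 * ε) + 2)
    have hm5 : 5 ≤ m + 5 := by omega
    have hbdd : BddBelow {r : ℝ | ∃ S : Finset E3, Admissible S ∧ r = quo S} := by
      refine ⟨3 / 2, ?_⟩
      rintro r ⟨S, hS, rfl⟩
      exact (hlt S hS).le
    refine (csInf_le hbdd ⟨mS (m + 5), mS_admissible hm5, rfl⟩).trans ?_
    refine (quo_mS hm5).trans ?_
    have h3 : 3 / (2 * (((m + 5 : ℕ) : ℝ) - 2)) ≤ ε := by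
      have h4 : 0 < 3 / (2 * ε) := by positivity
      have h5 : (((m + 5 : ℕ) : ℝ) - 2) ≥ 3 / (2 * ε) := by push_cast; linarith
      rw [div_le_iff₀ (by linarith)]
      have h6 : 3 / (2 * ε) * (2 * ε) = 3 := by field_simp
      nlinarith
    linarith
  · apply le_csInf
    · exact ⟨_, mS 5, mS_admissible le_rfl, rfl⟩
    · rintro r ⟨S, hS, rfl⟩
      exact (hlt S hS).le

end Pool.Agent.Q25.PLP
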