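import Pool.Agent.Q25.PLP.Top0
import Pool.Agent.Q25.PLP.HY
import Pool.Agent.Q96.PLP.B1
import Pool.Agent.Q96.PLP.CB
import Pool.Agent.Q96.PLP.ABS
import Pool.Agent.Q150.PLP.C1
import Pool.Agent.Q150.PLP.SW

/-!
# The main theorems
-/

set_option autoImplicit false

namespace Pool.Agent.Q25.PLP

theorem m1_true : S_M1 := Pool.Agent.Q164.PLP.t_M1

theorem r3_true : S_R3 := Pool.Agent.Q153.PLPR3.t_R3

/-- `t ^ 2 ≥ 3 n π / 2 + n ∑ 1 / |L|` for the points, lines and planes of a finite geometry -/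
theorem fin_true : S_FIN := fin_of Pool.Agent.Q96.PLP.t_B1 Pool.Agent.Q96.PLP.t_DBE
  Pool.Agent.Q150.PLPC1.t_C1 Pool.Agent.Q96.PLP.t_CB Pool.Agent.Q96.PLP.t_ABS
  Pool.Agent.Q150.PLPSW.t_SW

end Pool.Agent.Q25.PLP
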