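import Pool.Agent.Q25.PLP.Mas
import Pool.Agent.Q25.PLP.KS
import Pool.Agent.Q182.PLP.PL
import Pool.Agent.Q224.PLP.TC
import Pool.Agent.Q224.PLP.NP
import Pool.Agent.Q224.PLP.DEC
import Pool.Agent.Q224.PLP.LOW
import Pool.Agent.Q241.PLP.LC
import Pool.Agent.Q153.PLP.ABT
import Pool.Agent.Q153.PLP.R3
import Pool.Agent.Q123.PLP.PT
import Pool.Agent.Q164.PLP.PTT
import Pool.Agent.Q164.PLP.M1
import Pool.Agent.Q123.PLP.LOCX
import Pool.Agent.Q94.PLP.EXP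
import Pool.Agent.Q94.PLP.H32
import Pool.Agent.Q154.PLP.VERT
import Pool.Agent.Q154.PLP.G3
import Pool.Agent.Q143.PLP.LOC
import Pool.Agent.Q51.PLP.Gib
import Pool.Agent.Q51.PLP.Lim
import Pool.Agent.Q291.PLP.G1
import Pool.Agent.Q205.PLP.GA
import Pool.Agent.Q214.PLP.FIN

/-!
# Assembly of the steps
-/

set_option autoImplicit false

namespace Pool.Agent.Q25.PLP

theorem fin_of (hB1 : S_B1) (hDBE : S_DBE) (hC1 : S_C1) (hCB : S_CB) (hABS : S_ABS)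
    (hSW : S_SW) : S_FIN := by
  have hLC : S_LC := Pool.Agent.Q241.PLPLC.t_LC
  have hABT : S_ABT := Pool.Agent.Q153.PLPABT.t_ABT hLC
  have hPT : S_PT := Pool.Agent.Q123.PLP.t_PT hCB hABS
  have hPTT : S_PTT := Pool.Agent.Q164.PLP.t_PTT hABT
  have hLOW : S_LOW := Pool.Agent.Q224.PLPLOW.t_LOW hB1
  have hLOCX : S_LOCX := Pool.Agent.Q123.PLP.t_LOCX hC1 Pool.Agent.Q224.PLPTC.t_TC
    Pool.Agent.Q224.PLPNP.t_NP Pool.Agent.Q224.PLPDEC.t_DEC hLOW hPT hPTT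
  have hEXP : S_EXP := Pool.Agent.Q94.PLPEXP.t_EXP
  have hH32 : S_H32 := Pool.Agent.Q94.PLPH32.t_H32 hEXP hSW hDBE
  have hVERT : S_VERT := Pool.Agent.Q154.PLPVERT.t_VERT hEXP
  have hLOC : S_LOC := Pool.Agent.Q143.PLPLOC.t_LOC hVERT hLOCX
  have hLIM : S_LIM := Pool.Agent.Q51.PLP.t_LIM Pool.Agent.Q51.PLP.t_GIB
  have hGA : S_GA := Pool.Agent.Q205.PLPGA.t_GA Pool.Agent.Q291.PLPG1.t_G1
    Pool.Agent.Q291.PLPG1.t_G2 Pool.Agent.Q154.PLPG3.t_G3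
  exact Pool.Agent.Q214.PLPFIN.t_FIN Pool.Agent.Q182.PLPPL.t_PL hH32 hLIM hLOC hGA

end Pool.Agent.Q25.PLP
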